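import Mathlib.Combinatorics.SimpleGraph.Subgraph
import Mathlib.Combinatorics.SimpleGraph.Operations
import Mathlib.Combinatorics.SimpleGraph.Maps
import Mathlib.Data.Set.Card
import Mathlib.Tactic

/-!
# Graph bootstrap percolation: definitions and basic facts
-/

namespace Pool.Agent.Q267.GBP

open SimpleGraph

/-- `n_H(G)`: the number of subgraphs of the complete graph on `V` all of whose edges are edges of
`G` and which are isomorphic to `H`. -/
noncomputable def numCopies {W V : Type*} (H : SimpleGraph W) (G : SimpleGraph V) : ℕ :=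
  Set.ncard {K : (⊤ : SimpleGraph V).Subgraph |
    (∀ a b, K.Adj a b → G.Adj a b) ∧ Nonempty (H ≃g K.coe)}

/-- One round of the `H`-process: add every pair whose addition increases the number of copies
of `H`. -/
def infect {W V : Type*} (H : SimpleGraph W) (G : SimpleGraph V) : SimpleGraph V where
  Adj x y := G.Adj x y ∨ (x ≠ y ∧ numCopies H G < numCopies H (G ⊔ SimpleGraph.edge x y))
  symm := by
    constructor
    rintro x y (h | ⟨h, h'⟩)
    · exact Or.inl h.symm
    · exact Or.inr ⟨h.symm, by rwa [SimpleGraph.edge_comm] at h'⟩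
  loopless := by
    constructor
    rintro x (h | ⟨h, _⟩)
    · exact G.loopless.irrefl x h
    · exact h rfl

/-- The `H`-process started at `G`. -/
def proc {W V : Type*} (H : SimpleGraph W) (G : SimpleGraph V) : ℕ → SimpleGraph V
  | 0 => G
  | t + 1 => infect H (proc H G t)

/-- The running time `τ_H(G)`. -/
noncomputable def runTime {W V : Type*} (H : SimpleGraph W) (G : SimpleGraph V) : ℕ :=
  sInf {t | proc H G t = proc H G (t + 1)}

/-- The maximum running time `M_H(n)`. -/
noncomputable def maxTime {W : Type*} (H : SimpleGraph W) (n : ℕ) : ℕ :=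
  sSup (Set.range (fun G : SimpleGraph (Fin n) => runTime H G))

/-- `H^{u+}`: add to `H` a new vertex (`none`) joined only to `u`. -/
def addPendant {W : Type*} (H : SimpleGraph W) (u : W) : SimpleGraph (Option W) where
  Adj a b := match a, b with
    | some a, some b => H.Adj a b
    | none, some b => b = u
    | some a, none => a = u
    | none, none => False
  symm := by
    constructor
    rintro (_ | a) (_ | b) h
    · exact h
    · exact h
    · exact h
    · exact (show H.Adj a b from h).symm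
  loopless := by
    constructor
    rintro (_ | a) h
    · exact h
    · exact H.loopless.irrefl a h

section basic

variable {W V : Type*} {H : SimpleGraph W} {G G' : SimpleGraph V}

/-- `f` is a copy of `H` in `G + xy` using the pair `xy`. -/
def UsesCopy (H : SimpleGraph W) (G : SimpleGraph V) (x y : V) : Prop :=
  ∃ f : W → V, Function.Injective f ∧
    (∀ a b, H.Adj a b → G.Adj (f a) (f b) ∨ s(f a, f b) = s(x, y)) ∧
    ∃ a b, H.Adj a b ∧ s(f a, f b) = s(x, y)

theorem UsesCopy.symm {x y : V} (h : UsesCopy H G x y) : UsesCopy H G y x := by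
  obtain ⟨f, h1, h2, h3⟩ := h
  exact ⟨f, h1, fun a b hab => by rw [Sym2.eq_swap (a := y)]; exact h2 a b hab,
    by rw [Sym2.eq_swap (a := y)]; exact h3⟩

theorem numCopies_lt_iff [Finite V] {x y : V} (hxy : x ≠ y) :
    numCopies H G < numCopies H (G ⊔ SimpleGraph.edge x y) ↔
      ¬ G.Adj x y ∧ UsesCopy H G x y := by
  have hadj : ∀ a b : V, (G ⊔ SimpleGraph.edge x y).Adj a b ↔ (G.Adj a b ∨ s(a, b) = s(x, y)) := by
    intro a b
    rw [SimpleGraph.sup_adj, SimpleGraph.edge_adj, Sym2.eq_iff]
    constructor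
    · rintro (h | ⟨h, _⟩)
      · exact Or.inl h
      · exact Or.inr h
    · rintro (h | h)
      · exact Or.inl h
      · refine Or.inr ⟨h, ?_⟩
        rcases h with ⟨rfl, rfl⟩ | ⟨rfl, rfl⟩
        · exact hxy
        · exact hxy.symm
  have hsub : {K : (⊤ : SimpleGraph V).Subgraph |
      (∀ a b, K.Adj a b → G.Adj a b) ∧ Nonempty (H ≃g K.coe)} ⊆
      {K : (⊤ : SimpleGraph V).Subgraph |
      (∀ a b, K.Adj a b → (G ⊔ SimpleGraph.edge x y).Adj a b) ∧ Nonempty (H ≃g K.coe)} := by
    rintro K ⟨h1, h2⟩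
    exact ⟨fun a b hab => Or.inl (h1 a b hab), h2⟩
  constructor
  · intro hlt
    have hne : ∃ K : (⊤ : SimpleGraph V).Subgraph,
        ((∀ a b, K.Adj a b → (G ⊔ SimpleGraph.edge x y).Adj a b) ∧ Nonempty (H ≃g K.coe)) ∧
        ¬ ((∀ a b, K.Adj a b → G.Adj a b) ∧ Nonempty (H ≃g K.coe)) := by
      by_contra hcon
      push Not at hcon
      have : {K : (⊤ : SimpleGraph V).Subgraph |
          (∀ a b, K.Adj a b → (G ⊔ SimpleGraph.edge x y).Adj a b) ∧ Nonempty (H ≃g K.coe)} ⊆
          {K : (⊤ : SimpleGraph V).Subgraph |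
          (∀ a b, K.Adj a b → G.Adj a b) ∧ Nonempty (H ≃g K.coe)} := by
        intro K hK
        exact hcon K hK
      exact absurd (Set.ncard_le_ncard this (Set.toFinite _)) (not_le.2 hlt)
    obtain ⟨K, ⟨hK1, ⟨φ⟩⟩, hK2⟩ := hne
    have hex : ∃ a b, K.Adj a b ∧ ¬ G.Adj a b := by
      by_contra hcon
      push Not at hcon
      exact hK2 ⟨hcon, ⟨φ⟩⟩
    obtain ⟨a, b, hab, hnab⟩ := hex
    have hs : s(a, b) = s(x, y) := by
      rcases (hadj a b).1 (hK1 a b hab) with h | h
      · exact absurd h hnab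
      · exact h
    have hnxy : ¬ G.Adj x y := by
      rcases Sym2.eq_iff.1 hs with ⟨rfl, rfl⟩ | ⟨rfl, rfl⟩
      · exact hnab
      · exact fun h => hnab h.symm
    refine ⟨hnxy, fun c => (φ c : V), ?_, ?_, ?_⟩
    · intro c d hcd
      exact φ.injective (Subtype.ext hcd)
    · intro c d hcd
      have : K.coe.Adj (φ c) (φ d) := φ.map_adj_iff.2 hcd
      exact (hadj _ _).1 (hK1 _ _ (by simpa using this))
    · have ha : a ∈ K.verts := K.edge_vert hab
      have hb : b ∈ K.verts := K.edge_vert hab.symm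
      refine ⟨φ.symm ⟨a, ha⟩, φ.symm ⟨b, hb⟩, ?_, ?_⟩
      · rw [← φ.map_adj_iff, RelIso.apply_symm_apply, RelIso.apply_symm_apply]
        simpa using hab
      · simp only [RelIso.apply_symm_apply]; exact hs
  · rintro ⟨hnxy, f, hf, h1, a, b, hab, hs⟩
    let K : (⊤ : SimpleGraph V).Subgraph :=
      { verts := Set.range f
        Adj := fun p q => ∃ c d, H.Adj c d ∧ f c = p ∧ f d = q
        adj_sub := by
          rintro p q ⟨c, d, hcd, rfl, rfl⟩
          exact fun h => hcd.ne (hf h)
        edge_vert := by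
          rintro p q ⟨c, d, _, rfl, _⟩
          exact ⟨c, rfl⟩
        symm := by
          constructor
          rintro p q ⟨c, d, hcd, rfl, rfl⟩
          exact ⟨d, c, hcd.symm, rfl, rfl⟩ }
    have hKiso : Nonempty (H ≃g K.coe) := by
      refine ⟨⟨Equiv.ofInjective f hf, ?_⟩⟩
      intro c d
      change (∃ c' d', H.Adj c' d' ∧ f c' = f c ∧ f d' = f d) ↔ H.Adj c d
      constructor
      · rintro ⟨c', d', h, e1, e2⟩
        rw [← hf e1, ← hf e2]; exact h
      · intro h
        exact ⟨c, d, h, rfl, rfl⟩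
    have hmem : K ∈ {K : (⊤ : SimpleGraph V).Subgraph |
        (∀ a b, K.Adj a b → (G ⊔ SimpleGraph.edge x y).Adj a b) ∧ Nonempty (H ≃g K.coe)} := by
      refine ⟨?_, hKiso⟩
      rintro p q ⟨c, d, hcd, rfl, rfl⟩
      exact (hadj _ _).2 (h1 c d hcd)
    have hnmem : K ∉ {K : (⊤ : SimpleGraph V).Subgraph |
        (∀ a b, K.Adj a b → G.Adj a b) ∧ Nonempty (H ≃g K.coe)} := by
      rintro ⟨h, _⟩
      have := h (f a) (f b) ⟨a, b, hab, rfl, rfl⟩
      rcases Sym2.eq_iff.1 hs with ⟨e1, e2⟩ | ⟨e1, e2⟩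
      · rw [e1, e2] at this; exact hnxy this
      · rw [e1, e2] at this; exact hnxy this.symm
    exact Set.ncard_lt_ncard (Set.ssubset_iff_of_subset hsub |>.2 ⟨K, hmem, hnmem⟩) (Set.toFinite _)

theorem infect_adj_iff [Finite V] {x y : V} :
    (infect H G).Adj x y ↔ G.Adj x y ∨ (x ≠ y ∧ UsesCopy H G x y) := by
  constructor
  · rintro (h | ⟨h, h'⟩)
    · exact Or.inl h
    · exact Or.inr ⟨h, ((numCopies_lt_iff h).1 h').2⟩
  · rintro (h | ⟨h, h'⟩)
    · exact Or.inl h
    · by_cases hG : G.Adj x y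
      · exact Or.inl hG
      · exact Or.inr ⟨h, (numCopies_lt_iff h).2 ⟨hG, h'⟩⟩

theorem le_infect : G ≤ infect H G := fun _ _ h => Or.inl h

theorem infect_mono [Finite V] (h : G ≤ G') : infect H G ≤ infect H G' := by
  intro x y hxy
  rw [infect_adj_iff] at hxy ⊢
  rcases hxy with hxy | ⟨hne, f, hf, h1, h2⟩
  · exact Or.inl (h hxy)
  · exact Or.inr ⟨hne, f, hf, fun a b hab => (h1 a b hab).imp (fun hh => h hh) id, h2⟩

theorem proc_le_succ (G : SimpleGraph V) (t : ℕ) : proc H G t ≤ proc H G (t + 1) := le_infect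

theorem proc_mono (G : SimpleGraph V) {s t : ℕ} (hst : s ≤ t) : proc H G s ≤ proc H G t :=
  monotone_nat_of_le_succ (fun t => proc_le_succ G t) hst

/-- The running time is at least `T` when the process is not stable before time `T`. -/
theorem le_runTime [Finite V] {T : ℕ} (h : ∀ t < T, proc H G t ≠ proc H G (t + 1)) :
    T ≤ runTime H G := by
  -- the process stabilises
  have hex : {t | proc H G t = proc H G (t + 1)}.Nonempty := by
    by_contra hcon
    rw [Set.not_nonempty_iff_eq_empty] at hcon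
    have hne : ∀ t, proc H G t ≠ proc H G (t + 1) := fun t ht => by
      have : t ∈ {t | proc H G t = proc H G (t + 1)} := ht
      rw [hcon] at this; exact this
    have hsm : StrictMono (fun t => proc H G t) :=
      strictMono_nat_of_lt_succ (fun t => lt_of_le_of_ne (proc_le_succ G t) (hne t))
    exact not_injective_infinite_finite _ hsm.injective
  exact le_csInf hex (fun t ht => by
    by_contra hlt
    exact h t (by omega) ht)

theorem runTime_le {T : ℕ} (h : proc H G T = proc H G (T + 1)) : runTime H G ≤ T :=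
  Nat.sInf_le h

theorem runTime_le_maxTime {n : ℕ} (G : SimpleGraph (Fin n)) : runTime H G ≤ maxTime H n :=
  le_csSup (Set.finite_range _).bddAbove ⟨G, rfl⟩

theorem maxTime_le {n T : ℕ} (h : ∀ G : SimpleGraph (Fin n), runTime H G ≤ T) :
    maxTime H n ≤ T := by
  apply csSup_le (Set.range_nonempty _)
  rintro _ ⟨G, rfl⟩
  exact h G

end basic

/-- The wheel with hub `6` and rim `0, 1, …, 5`. -/
def W6 : SimpleGraph (Fin 7) :=
  SimpleGraph.fromRel (fun a b => b = 6 ∨ (a.val < 6 ∧ b.val = (a.val + 1) % 6))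

instance : DecidableRel W6.Adj := by unfold W6; infer_instance

section wheel

variable {V : Type*}

/-- A wheel with hub `h` and rim `r 0, …, r 5` for the relation `A`. -/
structure Wheel (A : V → V → Prop) (h : V) (r : Fin 6 → V) : Prop where
  inj : Function.Injective r
  ne : ∀ i, r i ≠ h
  spoke : ∀ i, A h (r i)
  rim : ∀ i, A (r i) (r (i + 1))

/-- Adjacency in `G + xy`. -/
def AddAdj (G : SimpleGraph V) (x y a b : V) : Prop := G.Adj a b ∨ s(a, b) = s(x, y)

theorem AddAdj.symm {G : SimpleGraph V} {x y a b : V} (h : AddAdj G x y a b) :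
    AddAdj G x y b a := by
  rcases h with h | h
  · exact Or.inl h.symm
  · exact Or.inr (by rw [Sym2.eq_swap]; exact h)

/-- The rim map of a map from `Fin 7`. -/
def rimOf (f : Fin 7 → V) (i : Fin 6) : V := f i.castSucc

theorem W6_adj_rim : ∀ i : Fin 6, W6.Adj i.castSucc (i + 1).castSucc := by decide

theorem W6_adj_spoke : ∀ i : Fin 6, W6.Adj 6 i.castSucc := by decide

theorem W6_adj_cases : ∀ a b : Fin 7, W6.Adj a b →
    (∃ i : Fin 6, (a = 6 ∧ b = i.castSucc) ∨ (b = 6 ∧ a = i.castSucc)) ∨
    (∃ i : Fin 6, (a = i.castSucc ∧ b = (i + 1).castSucc) ∨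
      (b = i.castSucc ∧ a = (i + 1).castSucc)) := by decide

/-- The map `Fin 7 → V` with given hub and rim. -/
def wheelMap (h : V) (r : Fin 6 → V) : Fin 7 → V := Fin.snoc (α := fun _ => V) r h

theorem wheelMap_last (h : V) (r : Fin 6 → V) : wheelMap h r 6 = h := by
  have : (6 : Fin 7) = Fin.last 6 := rfl
  rw [this]; exact Fin.snoc_last _ _

theorem wheelMap_castSucc (h : V) (r : Fin 6 → V) (i : Fin 6) :
    wheelMap h r i.castSucc = r i := Fin.snoc_castSucc _ _ _

theorem wheelMap_inj {h : V} {r : Fin 6 → V} (hr : Function.Injective r) (hne : ∀ i, r i ≠ h) :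
    Function.Injective (wheelMap h r) := by
  intro a b hab
  induction a using Fin.lastCases with
  | last =>
    induction b using Fin.lastCases with
    | last => rfl
    | cast j =>
      exfalso
      rw [wheelMap_castSucc] at hab
      have : wheelMap h r (Fin.last 6) = h := wheelMap_last h r
      rw [this] at hab
      exact hne j hab.symm
  | cast i =>
    induction b using Fin.lastCases with
    | last =>
      exfalso
      rw [wheelMap_castSucc] at hab
      have : wheelMap h r (Fin.last 6) = h := wheelMap_last h r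
      rw [this] at hab
      exact hne i hab
    | cast j =>
      rw [wheelMap_castSucc, wheelMap_castSucc] at hab
      rw [hr hab]

/-- Description of `UsesCopy` for the wheel. -/
theorem usesCopy_W6_iff {G : SimpleGraph V} {x y : V} :
    UsesCopy W6 G x y ↔ ∃ h r, Wheel (AddAdj G x y) h r ∧
      ((∃ i, s(h, r i) = s(x, y)) ∨ (∃ i, s(r i, r (i + 1)) = s(x, y))) := by
  constructor
  · rintro ⟨f, hf, h1, a, b, hab, hs⟩
    refine ⟨f 6, rimOf f, ⟨?_, ?_, ?_, ?_⟩, ?_⟩
    · intro i j hij
      exact Fin.castSucc_injective _ (hf hij)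
    · intro i h
      have := hf h
      exact absurd this (Fin.castSucc_lt_last i).ne
    · intro i
      exact h1 _ _ (W6_adj_spoke i)
    · intro i
      exact h1 _ _ (W6_adj_rim i)
    · rcases W6_adj_cases a b hab with ⟨i, ⟨rfl, rfl⟩ | ⟨rfl, rfl⟩⟩ | ⟨i, ⟨rfl, rfl⟩ | ⟨rfl, rfl⟩⟩
      · exact Or.inl ⟨i, hs⟩
      · exact Or.inl ⟨i, by rw [Sym2.eq_swap]; exact hs⟩
      · exact Or.inr ⟨i, hs⟩
      · exact Or.inr ⟨i, by rw [Sym2.eq_swap]; exact hs⟩
  · rintro ⟨h, r, hW, hu⟩
    refine ⟨wheelMap h r, wheelMap_inj hW.inj hW.ne, ?_, ?_⟩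
    · intro a b hab
      rcases W6_adj_cases a b hab with ⟨i, ⟨rfl, rfl⟩ | ⟨rfl, rfl⟩⟩ | ⟨i, ⟨rfl, rfl⟩ | ⟨rfl, rfl⟩⟩
      · rw [wheelMap_last, wheelMap_castSucc]; exact hW.spoke i
      · rw [wheelMap_last, wheelMap_castSucc]; exact (hW.spoke i).symm
      · rw [wheelMap_castSucc, wheelMap_castSucc]; exact hW.rim i
      · rw [wheelMap_castSucc, wheelMap_castSucc]; exact (hW.rim i).symm
    · rcases hu with ⟨i, hi⟩ | ⟨i, hi⟩
      · exact ⟨6, i.castSucc, W6_adj_spoke i, by rw [wheelMap_last, wheelMap_castSucc]; exact hi⟩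
      · exact ⟨i.castSucc, (i + 1).castSucc, W6_adj_rim i,
          by rw [wheelMap_castSucc, wheelMap_castSucc]; exact hi⟩

/-- Description of `UsesCopy` for the wheel with a pendant edge at the hub. -/
theorem usesCopy_W6p_iff {G : SimpleGraph V} {x y : V} :
    UsesCopy (addPendant W6 6) G x y ↔ ∃ h r z, Wheel (AddAdj G x y) h r ∧ z ≠ h ∧ (∀ i, r i ≠ z) ∧
      AddAdj G x y h z ∧
      ((∃ i, s(h, r i) = s(x, y)) ∨ (∃ i, s(r i, r (i + 1)) = s(x, y)) ∨ s(h, z) = s(x, y)) := by
  constructor
  · rintro ⟨f, hf, h1, a, b, hab, hs⟩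
    refine ⟨f (some 6), rimOf (fun i => f (some i)), f none, ⟨?_, ?_, ?_, ?_⟩, ?_, ?_, ?_, ?_⟩
    · intro i j hij
      exact Fin.castSucc_injective _ (Option.some_injective _ (hf hij))
    · intro i h
      have := Option.some_injective _ (hf h)
      exact absurd this (Fin.castSucc_lt_last i).ne
    · intro i
      exact h1 (some 6) (some i.castSucc) (W6_adj_spoke i)
    · intro i
      exact h1 (some _) (some _) (W6_adj_rim i)
    · intro h
      have := hf h
      cases this
    · intro i h
      have := hf h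
      cases this
    · exact h1 (some 6) none rfl
    · rcases a with _ | a <;> rcases b with _ | b
      · exact hab.elim
      · right; right
        have : b = 6 := hab
        rw [Sym2.eq_swap, ← this]; exact hs
      · right; right
        have : a = 6 := hab
        rw [← this]; exact hs
      · have hab' : W6.Adj a b := hab
        rcases W6_adj_cases a b hab' with ⟨i, ⟨rfl, rfl⟩ | ⟨rfl, rfl⟩⟩ |
          ⟨i, ⟨rfl, rfl⟩ | ⟨rfl, rfl⟩⟩
        · exact Or.inl ⟨i, hs⟩
        · exact Or.inl ⟨i, by rw [Sym2.eq_swap]; exact hs⟩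
        · exact Or.inr (Or.inl ⟨i, hs⟩)
        · exact Or.inr (Or.inl ⟨i, by rw [Sym2.eq_swap]; exact hs⟩)
  · rintro ⟨h, r, z, hW, hzh, hrz, hz, hu⟩
    let f : Option (Fin 7) → V := fun o => o.elim z (wheelMap h r)
    have hnz : ∀ a, wheelMap h r a ≠ z := by
      intro a
      induction a using Fin.lastCases with
      | last =>
        have : wheelMap h r (Fin.last 6) = h := wheelMap_last h r
        rw [this]; exact hzh.symm
      | cast i => rw [wheelMap_castSucc]; exact hrz i
    refine ⟨f, ?_, ?_, ?_⟩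
    · rintro (_ | a) (_ | b) hab
      · rfl
      · exact absurd hab.symm (hnz b)
      · exact absurd hab (hnz a)
      · rw [wheelMap_inj hW.inj hW.ne hab]
    · rintro (_ | a) (_ | b) hab
      · exact hab.elim
      · have : b = 6 := hab
        subst this
        change AddAdj G x y z (wheelMap h r 6)
        rw [wheelMap_last]; exact hz.symm
      · have : a = 6 := hab
        subst this
        change AddAdj G x y (wheelMap h r 6) z
        rw [wheelMap_last]; exact hz
      · have hab' : W6.Adj a b := hab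
        change AddAdj G x y (wheelMap h r a) (wheelMap h r b)
        rcases W6_adj_cases a b hab' with ⟨i, ⟨rfl, rfl⟩ | ⟨rfl, rfl⟩⟩ |
          ⟨i, ⟨rfl, rfl⟩ | ⟨rfl, rfl⟩⟩
        · rw [wheelMap_last, wheelMap_castSucc]; exact hW.spoke i
        · rw [wheelMap_last, wheelMap_castSucc]; exact (hW.spoke i).symm
        · rw [wheelMap_castSucc, wheelMap_castSucc]; exact hW.rim i
        · rw [wheelMap_castSucc, wheelMap_castSucc]; exact (hW.rim i).symm
    · rcases hu with ⟨i, hi⟩ | ⟨i, hi⟩ | hi
      · refine ⟨some 6, some i.castSucc, W6_adj_spoke i, ?_⟩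
        change s(wheelMap h r 6, wheelMap h r i.castSucc) = _
        rw [wheelMap_last, wheelMap_castSucc]; exact hi
      · refine ⟨some i.castSucc, some (i + 1).castSucc, W6_adj_rim i, ?_⟩
        change s(wheelMap h r i.castSucc, wheelMap h r (i + 1).castSucc) = _
        rw [wheelMap_castSucc, wheelMap_castSucc]; exact hi
      · refine ⟨some 6, none, rfl, ?_⟩
        change s(wheelMap h r 6, z) = _
        rw [wheelMap_last]; exact hi

end wheel

end Pool.Agent.Q267.GBP
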