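import Mathlib.Combinatorics.SimpleGraph.Metric
import Mathlib.Combinatorics.SimpleGraph.Paths
import Mathlib.Combinatorics.SimpleGraph.Connectivity.Connected
import Mathlib.Tactic

/-!
# The `C_6`-process is fast
-/

namespace Pool.Agent.Q267.GBP

open SimpleGraph

variable {V : Type*}

/-- A path with six vertices. -/
def Path6 (G : SimpleGraph V) (a : Fin 6 → V) : Prop :=
  Function.Injective a ∧ ∀ i : Fin 5, G.Adj (a i.castSucc) (a i.succ)

theorem Path6.mono {G G' : SimpleGraph V} (h : G ≤ G') {a : Fin 6 → V} (ha : Path6 G a) :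
    Path6 G' a := ⟨ha.1, fun i => h (ha.2 i)⟩

/-- A sequence of graphs following the `C_6`-process up to time `T`. -/
structure C6seq (B : ℕ → SimpleGraph V) (T : ℕ) : Prop where
  mono : ∀ t, B t ≤ B (t + 1)
  close : ∀ t a, Path6 (B t) a → (B (t + 1)).Adj (a 0) (a 5)
  only : ∀ t < T, ∀ x y, (B (t + 1)).Adj x y →
    (B t).Adj x y ∨ ∃ a, Path6 (B t) a ∧ a 0 = x ∧ a 5 = y

theorem C6seq.monotone {B : ℕ → SimpleGraph V} {T : ℕ} (h : C6seq B T) {s t : ℕ} (hst : s ≤ t) :
    B s ≤ B t := monotone_nat_of_le_succ h.mono hst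

theorem C6seq.shift {B : ℕ → SimpleGraph V} {T : ℕ} (h : C6seq B T) (s : ℕ) :
    C6seq (fun t => B (s + t)) (T - s) where
  mono t := h.mono (s + t)
  close t a ha := h.close (s + t) a ha
  only t ht x y hxy := h.only (s + t) (by omega) x y hxy

/-- Distances shrink. -/
theorem C6seq.shrink {B : ℕ → SimpleGraph V} {T : ℕ} (h : C6seq B T) (t : ℕ) {x y : V}
    (hxy : (B t).Reachable x y) :
    (B (t + 1)).Reachable x y ∧ (B (t + 1)).dist x y ≤ (B t).dist x y / 5 + 4 := by
  obtain ⟨p, hp⟩ := hxy.exists_walk_length_eq_dist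
  have hpath : p.IsPath := p.isPath_of_length_eq_dist hp
  obtain ⟨d, hd⟩ : ∃ d, d = (B t).dist x y := ⟨_, rfl⟩
  rw [← hd] at hp ⊢
  have hinj := hpath.getVert_injOn
  -- the fast part
  have hfast : ∀ q, 5 * q ≤ d → ∃ w : (B (t + 1)).Walk x (p.getVert (5 * q)), w.length = q := by
    intro q
    induction q with
    | zero =>
      intro _
      refine ⟨(Walk.nil : (B (t + 1)).Walk x x).copy rfl (by simp), by simp⟩
    | succ q ih =>
      intro hq
      obtain ⟨w, hw⟩ := ih (by omega)
      have hadj : (B (t + 1)).Adj (p.getVert (5 * q)) (p.getVert (5 * (q + 1))) := by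
        have := h.close t (fun i : Fin 6 => p.getVert (5 * q + i.val)) ⟨?_, ?_⟩
        · exact this
        · intro i j hij
          have hi := i.isLt
          have hj := j.isLt
          have := hinj (by simp only [Set.mem_ofPred_eq]; omega)
            (by simp only [Set.mem_ofPred_eq]; omega) hij
          exact Fin.ext (by omega)
        · intro i
          have hi := i.isLt
          have := p.adj_getVert_succ (i := 5 * q + i.val) (by omega)
          simpa [Nat.add_assoc] using this
      exact ⟨w.concat hadj, by rw [Walk.length_concat, hw]⟩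
  obtain ⟨w, hw⟩ := hfast (d / 5) (by omega)
  let p2 := p.drop (5 * (d / 5))
  have hp2 : p2.length = d - 5 * (d / 5) := by
    rw [Walk.drop_length, hp]
  let p3 : (B (t + 1)).Walk (p.getVert (5 * (d / 5))) y := p2.mapLe (h.mono t)
  have hp3 : p3.length = d - 5 * (d / 5) := by
    rw [← hp2]; exact Walk.length_map _ _
  refine ⟨⟨w.append p3⟩, ?_⟩
  refine (dist_le (w.append p3)).trans ?_
  rw [Walk.length_append, hw, hp3]
  omega

theorem C6seq.dist_le [Fintype V] {B : ℕ → SimpleGraph V} {T : ℕ} (h : C6seq B T) (k : ℕ)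
    {x y : V} (hxy : (B 0).Reachable x y) :
    (B k).Reachable x y ∧ (B k).dist x y ≤ Fintype.card V / 2 ^ k + 8 := by
  induction k with
  | zero =>
    refine ⟨hxy, ?_⟩
    obtain ⟨p, hp⟩ := hxy.exists_walk_length_eq_dist
    have hpath : p.IsPath := p.isPath_of_length_eq_dist hp
    have := hpath.length_lt
    simp only [pow_zero, Nat.div_one]
    omega
  | succ k ih =>
    obtain ⟨ih1, ih2⟩ := ih
    obtain ⟨h1, h2⟩ := h.shrink k ih1
    refine ⟨h1, h2.trans ?_⟩
    rw [pow_succ, ← Nat.div_div_eq_div_mul]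
    omega

/-- The components do not change. -/
theorem C6seq.reach {B : ℕ → SimpleGraph V} {T : ℕ} (h : C6seq B T) (t : ℕ) (ht : t ≤ T)
    {x y : V} (hxy : (B t).Adj x y) : (B 0).Reachable x y := by
  induction t generalizing x y with
  | zero => exact hxy.reachable
  | succ t ih =>
    rcases h.only t (by omega) x y hxy with h1 | ⟨a, ha, rfl, rfl⟩
    · exact ih (by omega) h1
    · have h0 := ih (by omega) (ha.2 0)
      have h1 := ih (by omega) (ha.2 1)
      have h2 := ih (by omega) (ha.2 2)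
      have h3 := ih (by omega) (ha.2 3)
      have h4 := ih (by omega) (ha.2 4)
      exact (((h0.trans h1).trans h2).trans h3).trans h4

/-- `S` is closed under the rule. -/
def Cl (G : SimpleGraph V) (S : Finset V) : Prop :=
  ∀ a, Path6 G a → (∀ i, a i ∈ S) → G.Adj (a 0) (a 5)

theorem C6seq.window {B : ℕ → SimpleGraph V} {T : ℕ} (h : C6seq B T) (S : Finset V)
    (hS : S.card ≤ 60) : ∃ t ≤ 3600, Cl (B t) S := by
  classical
  by_contra hcon
  push Not at hcon
  let e : ℕ → ℕ := fun t => ((S ×ˢ S).filter (fun p => (B t).Adj p.1 p.2)).card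
  have hstep : ∀ t ≤ 3600, e t + 1 ≤ e (t + 1) := by
    intro t ht
    have hnc := hcon t ht
    unfold Cl at hnc
    push Not at hnc
    obtain ⟨a, ha, haS, hna⟩ := hnc
    apply Finset.card_lt_card
    rw [Finset.ssubset_iff_of_subset]
    · refine ⟨(a 0, a 5), ?_, ?_⟩
      · exact Finset.mem_filter.2 ⟨Finset.mem_product.2 ⟨haS 0, haS 5⟩, h.close t a ha⟩
      · intro hmem
        exact hna (Finset.mem_filter.1 hmem).2
    · intro p hp
      rw [Finset.mem_filter] at hp ⊢
      exact ⟨hp.1, h.mono t hp.2⟩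
  have hge : ∀ t ≤ 3601, t ≤ e t := by
    intro t
    induction t with
    | zero => intro _; exact Nat.zero_le _
    | succ t ih =>
      intro ht
      have := ih (by omega)
      have := hstep t (by omega)
      omega
  have h1 := hge 3601 le_rfl
  have h2 : e 3601 ≤ 3600 := by
    refine (Finset.card_filter_le _ _).trans ?_
    rw [Finset.card_product]
    calc S.card * S.card ≤ 60 * 60 := Nat.mul_le_mul hS hS
      _ = 3600 := by norm_num
  omega

/-- Stationarity on closed unions of components. -/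
theorem C6seq.stat {B : ℕ → SimpleGraph V} {T : ℕ} (h : C6seq B T) (K : Finset V)
    (hK : ∀ x ∈ K, ∀ y, (B 0).Reachable x y → y ∈ K) (t₁ : ℕ) (hcl : Cl (B t₁) K) (t : ℕ)
    (ht₁ : t₁ ≤ t) (htT : t ≤ T) {x y : V} (hx : x ∈ K) (hxy : (B t).Adj x y) :
    (B t₁).Adj x y := by
  induction t, ht₁ using Nat.le_induction generalizing x y with
  | base => exact hxy
  | succ t ht ih =>
    rcases h.only t (by omega) x y hxy with h1 | ⟨a, ha, rfl, rfl⟩
    · exact ih (by omega) hx h1
    · have hr : ∀ i : Fin 5, a i.castSucc ∈ K → a i.succ ∈ K := by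
        intro i hi
        exact hK _ hi _ (h.reach t (by omega) (ha.2 i))
      have m1 : a 1 ∈ K := hr 0 hx
      have m2 : a 2 ∈ K := hr 1 m1
      have m3 : a 3 ∈ K := hr 2 m2
      have m4 : a 4 ∈ K := hr 3 m3
      have m5 : a 5 ∈ K := hr 4 m4
      have hall : ∀ i, a i ∈ K := by
        intro i
        fin_cases i
        · exact hx
        · exact m1
        · exact m2
        · exact m3
        · exact m4
        · exact m5
      exact hcl a ⟨ha.1, fun i => ih (by omega) (hall _) (ha.2 i)⟩ hall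

/-- Explicit form of closedness. -/
theorem cl6 {G : SimpleGraph V} {S : Finset V} (hcl : Cl G S) {v0 v1 v2 v3 v4 v5 : V}
    (hm : v0 ∈ S ∧ v1 ∈ S ∧ v2 ∈ S ∧ v3 ∈ S ∧ v4 ∈ S ∧ v5 ∈ S)
    (hnd : [v0, v1, v2, v3, v4, v5].Nodup) (h0 : G.Adj v0 v1) (h1 : G.Adj v1 v2)
    (h2 : G.Adj v2 v3) (h3 : G.Adj v3 v4) (h4 : G.Adj v4 v5) : G.Adj v0 v5 := by
  have := hcl ![v0, v1, v2, v3, v4, v5] ⟨?_, ?_⟩ ?_
  · exact this
  · rw [← List.nodup_ofFn]
    simpa using hnd
  · intro i
    fin_cases i
    · exact h0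
    · exact h1
    · exact h2
    · exact h3
    · exact h4
  · obtain ⟨m0, m1, m2, m3, m4, m5⟩ := hm
    intro i
    fin_cases i
    · exact m0
    · exact m1
    · exact m2
    · exact m3
    · exact m4
    · exact m5

end Pool.Agent.Q267.GBP
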