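import Pool.Agent.Q267.GBP.C6

/-!
# Structure of closed sets and the bound for the `C_6`-process
-/

namespace Pool.Agent.Q267.GBP

open SimpleGraph

set_option linter.unusedSectionVars false

variable {V : Type*} [DecidableEq V]

/-- The two classes of a closed set. -/
structure Classes (G : SimpleGraph V) (S A C : Finset V) : Prop where
  disj : Disjoint A C
  subA : A ⊆ S
  subC : C ⊆ S
  cardA : 3 ≤ A.card
  cardC : 3 ≤ C.card
  adj : ∀ u ∈ A, ∀ v ∈ C, G.Adj u v

theorem Classes.symm {G : SimpleGraph V} {S A C : Finset V} (h : Classes G S A C) :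
    Classes G S C A :=
  ⟨h.disj.symm, h.subC, h.subA, h.cardC, h.cardA, fun u hu v hv => (h.adj v hv u hu).symm⟩

theorem pick (A X : Finset V) (h : X.card < A.card) : ∃ a ∈ A, a ∉ X :=
  Finset.exists_mem_notMem_of_card_lt_card h

theorem Classes.ne {G : SimpleGraph V} {S A C : Finset V} (h : Classes G S A C) {u v : V}
    (hu : u ∈ A) (hv : v ∈ C) : u ≠ v := by
  rintro rfl
  exact Finset.disjoint_left.1 h.disj hu hv

/-- A vertex adjacent to a vertex of `A` is adjacent to all of `A`. -/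
theorem Classes.extend {G : SimpleGraph V} {S A C : Finset V} (h : Classes G S A C)
    (hcl : Cl G S) {v a : V} (hv : v ∈ S) (hvA : v ∉ A) (hvC : v ∉ C) (ha : a ∈ A)
    (hva : G.Adj v a) : ∀ a' ∈ A, G.Adj v a' := by
  intro a' ha'
  by_cases haa : a' = a
  · rw [haa]; exact hva
  obtain ⟨c1, hc1, -⟩ := pick C ∅ (by have := h.cardC; rw [Finset.card_empty]; omega)
  obtain ⟨c2, hc2, hc2'⟩ := pick C {c1} (by have := h.cardC; simp; omega)
  obtain ⟨a1, ha1, ha1'⟩ := pick A {a, a'} (by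
    have := h.cardA
    have := Finset.card_le_two (a := a) (b := a')
    omega)
  simp only [Finset.mem_insert, Finset.mem_singleton, not_or] at hc2' ha1'
  have hne : ∀ x ∈ A, v ≠ x := by rintro x hx rfl; exact hvA hx
  have hne' : ∀ x ∈ C, v ≠ x := by rintro x hx rfl; exact hvC hx
  refine cl6 hcl (v0 := v) (v1 := a) (v2 := c1) (v3 := a1) (v4 := c2) (v5 := a')
    ⟨hv, h.subA ha, h.subC hc1, h.subA ha1, h.subC hc2, h.subA ha'⟩ ?_ hva (h.adj a ha c1 hc1)
    (h.adj a1 ha1 c1 hc1).symm (h.adj a1 ha1 c2 hc2) (h.adj a' ha' c2 hc2).symm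
  have e1 := hne a ha
  have e2 := hne' c1 hc1
  have e3 := hne a1 ha1
  have e4 := hne' c2 hc2
  have e5 := hne a' ha'
  have e6 := h.ne ha hc1
  have e7 := h.ne ha hc2
  have e8 := h.ne ha1 hc1
  have e9 := h.ne ha1 hc2
  have e10 := h.ne ha' hc1
  have e11 := h.ne ha' hc2
  simp only [List.nodup_cons, List.mem_cons, List.not_mem_nil, or_false, not_or, List.nodup_nil,
    and_true, not_false_eq_true]
  refine ⟨⟨e1, e2, e3, e4, e5⟩, ⟨e6, Ne.symm ha1'.1, e7, Ne.symm haa⟩, ⟨e8.symm, Ne.symm hc2', e10.symm⟩,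
    ⟨e9, ha1'.2⟩, e11.symm⟩

/-- An edge inside `C` makes `A` complete. -/
theorem Classes.odd {G : SimpleGraph V} {S A C : Finset V} (h : Classes G S A C)
    (hcl : Cl G S) {p q : V} (hp : p ∈ C) (hq : q ∈ C) (hpq : G.Adj p q) :
    ∀ x ∈ A, ∀ y ∈ A, x ≠ y → G.Adj x y := by
  intro x hx y hy hxy
  obtain ⟨a, ha, ha'⟩ := pick A {x, y} (by
    have := h.cardA
    have := Finset.card_le_two (a := x) (b := y)
    omega)
  obtain ⟨c, hc, hc'⟩ := pick C {p, q} (by
    have := h.cardC
    have := Finset.card_le_two (a := p) (b := q)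
    omega)
  simp only [Finset.mem_insert, Finset.mem_singleton, not_or] at ha' hc'
  refine cl6 hcl (v0 := x) (v1 := p) (v2 := q) (v3 := a) (v4 := c) (v5 := y)
    ⟨h.subA hx, h.subC hp, h.subC hq, h.subA ha, h.subC hc, h.subA hy⟩ ?_ (h.adj x hx p hp) hpq
    (h.adj a ha q hq).symm (h.adj a ha c hc) (h.adj y hy c hc).symm
  have e1 := h.ne hx hp
  have e2 := h.ne hx hq
  have e3 := h.ne hx hc
  have e4 := h.ne ha hp
  have e5 := h.ne ha hq
  have e6 := h.ne ha hc
  have e7 := h.ne hy hp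
  have e8 := h.ne hy hq
  have e9 := h.ne hy hc
  simp only [List.nodup_cons, List.mem_cons, List.not_mem_nil, or_false, not_or, List.nodup_nil,
    and_true, not_false_eq_true]
  exact ⟨⟨e1, e2, Ne.symm ha'.1, e3, hxy⟩, ⟨hpq.ne, e4.symm, Ne.symm hc'.1, e7.symm⟩,
    ⟨e5.symm, Ne.symm hc'.2, e8.symm⟩, ⟨e6, ha'.2⟩, e9.symm⟩

/-- If `A` is complete then so is `C`. -/
theorem Classes.odd' {G : SimpleGraph V} {S A C : Finset V} (h : Classes G S A C)
    (hcl : Cl G S) {p q : V} (hp : p ∈ C) (hq : q ∈ C) (hpq : G.Adj p q) :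
    ∀ x ∈ C, ∀ y ∈ C, x ≠ y → G.Adj x y := by
  have hA := h.odd hcl hp hq hpq
  obtain ⟨a1, ha1, -⟩ := pick A ∅ (by have := h.cardA; rw [Finset.card_empty]; omega)
  obtain ⟨a2, ha2, ha2'⟩ := pick A {a1} (by have := h.cardA; simp; omega)
  simp only [Finset.mem_singleton] at ha2'
  exact h.symm.odd hcl ha1 ha2 (hA a1 ha1 a2 ha2 (Ne.symm ha2'))

theorem fin6_k : ∀ i : Fin 6, ∃ j : Fin 6, i = j := fun i => ⟨i, rfl⟩

/-- The core. -/
theorem core {G : SimpleGraph V} {S : Finset V} (hcl : Cl G S) (b : Fin 6 → V) (hb : Path6 G b)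
    (hbS : ∀ i, b i ∈ S) (z : V) (hz : z ∈ S) (hzb : ∀ i, b i ≠ z) (i₀ : Fin 6)
    (hzi : G.Adj (b i₀) z) :
    ∃ A C : Finset V, Classes G S A C ∧ (∀ i, b i ∈ A ∪ C) := by
  -- the cyclic structure
  have hcyc : ∀ j : Fin 6, G.Adj (b j) (b (j + 1)) := by
    intro j
    fin_cases j
    · exact hb.2 0
    · exact hb.2 1
    · exact hb.2 2
    · exact hb.2 3
    · exact hb.2 4
    · exact (hcl b hb hbS).symm
  let c : Fin 6 → V := fun j => b (i₀ + j)
  have hc : ∀ j : Fin 6, G.Adj (c j) (c (j + 1)) := by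
    intro j
    have := hcyc (i₀ + j)
    rw [add_assoc] at this
    exact this
  have hcinj : Function.Injective c := fun j k hjk => add_left_cancel (hb.1 hjk)
  have hcz : G.Adj z (c 0) := by
    have : c 0 = b i₀ := by simp only [c, add_zero]
    rw [this]; exact hzi.symm
  have hcS : ∀ j, c j ∈ S := fun j => hbS _
  have hczn : ∀ j, c j ≠ z := fun j => hzb _
  have hne : ∀ j k : Fin 6, j ≠ k → c j ≠ c k := fun j k hjk h => hjk (hcinj h)
  have n01 := hne 0 1 (by decide)
  have n02 := hne 0 2 (by decide)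
  have n03 := hne 0 3 (by decide)
  have n04 := hne 0 4 (by decide)
  have n05 := hne 0 5 (by decide)
  have n12 := hne 1 2 (by decide)
  have n13 := hne 1 3 (by decide)
  have n14 := hne 1 4 (by decide)
  have n15 := hne 1 5 (by decide)
  have n23 := hne 2 3 (by decide)
  have n24 := hne 2 4 (by decide)
  have n25 := hne 2 5 (by decide)
  have n34 := hne 3 4 (by decide)
  have n35 := hne 3 5 (by decide)
  have n45 := hne 4 5 (by decide)
  have z0 := hczn 0
  have z1 := hczn 1
  have z2 := hczn 2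
  have z3 := hczn 3
  have z4 := hczn 4
  have z5 := hczn 5
  have c01 : G.Adj (c 0) (c 1) := hc 0
  have c12 : G.Adj (c 1) (c 2) := hc 1
  have c23 : G.Adj (c 2) (c 3) := hc 2
  have c34 : G.Adj (c 3) (c 4) := hc 3
  have c45 : G.Adj (c 4) (c 5) := hc 4
  have c50 : G.Adj (c 5) (c 0) := hc 5
  have hz4 : G.Adj z (c 4) := by
    refine cl6 hcl (v0 := z) (v1 := c 0) (v2 := c 1) (v3 := c 2) (v4 := c 3) (v5 := c 4)
      ⟨hz, hcS _, hcS _, hcS _, hcS _, hcS _⟩ ?_ hcz c01 c12 c23 c34
    simp only [List.nodup_cons, List.mem_cons, List.not_mem_nil, or_false, not_or, List.nodup_nil,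
      and_true, not_false_eq_true]
    exact ⟨⟨z0.symm, z1.symm, z2.symm, z3.symm, z4.symm⟩, ⟨n01, n02, n03, n04⟩, ⟨n12, n13, n14⟩,
      ⟨n23, n24⟩, n34⟩
  have hz2 : G.Adj z (c 2) := by
    refine cl6 hcl (v0 := z) (v1 := c 0) (v2 := c 5) (v3 := c 4) (v4 := c 3) (v5 := c 2)
      ⟨hz, hcS _, hcS _, hcS _, hcS _, hcS _⟩ ?_ hcz c50.symm c45.symm c34.symm c23.symm
    simp only [List.nodup_cons, List.mem_cons, List.not_mem_nil, or_false, not_or, List.nodup_nil,
      and_true, not_false_eq_true]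
    exact ⟨⟨z0.symm, z5.symm, z4.symm, z3.symm, z2.symm⟩, ⟨n05, n04, n03, n02⟩,
      ⟨n45.symm, n35.symm, n25.symm⟩, ⟨n34.symm, n24.symm⟩, n23.symm⟩
  have h14 : G.Adj (c 1) (c 4) := by
    refine cl6 hcl (v0 := c 1) (v1 := c 2) (v2 := z) (v3 := c 0) (v4 := c 5) (v5 := c 4)
      ⟨hcS _, hcS _, hz, hcS _, hcS _, hcS _⟩ ?_ c12 hz2.symm hcz c50.symm c45.symm
    simp only [List.nodup_cons, List.mem_cons, List.not_mem_nil, or_false, not_or, List.nodup_nil,
      and_true, not_false_eq_true]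
    exact ⟨⟨n12, z1, n01.symm, n15, n14⟩, ⟨z2, n02.symm, n25, n24⟩, ⟨z0.symm, z5.symm, z4.symm⟩,
      ⟨n05, n04⟩, n45.symm⟩
  have h30 : G.Adj (c 3) (c 0) := by
    refine cl6 hcl (v0 := c 3) (v1 := c 4) (v2 := z) (v3 := c 2) (v4 := c 1) (v5 := c 0)
      ⟨hcS _, hcS _, hz, hcS _, hcS _, hcS _⟩ ?_ c34 hz4.symm hz2 c12.symm c01.symm
    simp only [List.nodup_cons, List.mem_cons, List.not_mem_nil, or_false, not_or, List.nodup_nil,
      and_true, not_false_eq_true]
    exact ⟨⟨n34, z3, n23.symm, n13.symm, n03.symm⟩, ⟨z4, n24.symm, n14.symm, n04.symm⟩,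
      ⟨z2.symm, z1.symm, z0.symm⟩, ⟨n12.symm, n02.symm⟩, n01.symm⟩
  have h52 : G.Adj (c 5) (c 2) := by
    refine cl6 hcl (v0 := c 5) (v1 := c 4) (v2 := z) (v3 := c 0) (v4 := c 1) (v5 := c 2)
      ⟨hcS _, hcS _, hz, hcS _, hcS _, hcS _⟩ ?_ c45.symm hz4.symm hcz c01 c12
    simp only [List.nodup_cons, List.mem_cons, List.not_mem_nil, or_false, not_or, List.nodup_nil,
      and_true, not_false_eq_true]
    exact ⟨⟨n45.symm, z5, n05.symm, n15.symm, n25.symm⟩, ⟨z4, n04.symm, n14.symm, n24.symm⟩,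
      ⟨z0.symm, z1.symm, z2.symm⟩, ⟨n01, n02⟩, n12⟩
  refine ⟨{c 0, c 2, c 4}, {c 1, c 3, c 5}, ⟨?_, ?_, ?_, ?_, ?_, ?_⟩, ?_⟩
  · rw [Finset.disjoint_left]
    intro x hx hx'
    simp only [Finset.mem_insert, Finset.mem_singleton] at hx hx'
    rcases hx with rfl | rfl | rfl <;> rcases hx' with h | h | h <;>
      first
      | exact n01 h | exact n03 h | exact n05 h | exact n12 h.symm | exact n23 h | exact n25 h
      | exact n14 h.symm | exact n34 h.symm | exact n45 h
  · intro x hx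
    simp only [Finset.mem_insert, Finset.mem_singleton] at hx
    rcases hx with rfl | rfl | rfl <;> exact hcS _
  · intro x hx
    simp only [Finset.mem_insert, Finset.mem_singleton] at hx
    rcases hx with rfl | rfl | rfl <;> exact hcS _
  · rw [Finset.card_eq_three.2 ⟨c 0, c 2, c 4, n02, n04, n24, rfl⟩]
  · rw [Finset.card_eq_three.2 ⟨c 1, c 3, c 5, n13, n15, n35, rfl⟩]
  · intro u hu v hv
    simp only [Finset.mem_insert, Finset.mem_singleton] at hu hv
    rcases hu with rfl | rfl | rfl <;> rcases hv with rfl | rfl | rfl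
    · exact c01
    · exact h30.symm
    · exact c50.symm
    · exact c12.symm
    · exact c23
    · exact h52.symm
    · exact h14.symm
    · exact c34.symm
    · exact c45
  · intro i
    have : ∀ i i₀ : Fin 6, ∃ j, i = i₀ + j := by decide
    obtain ⟨j, rfl⟩ := this i i₀
    change c j ∈ _
    simp only [Finset.mem_union, Finset.mem_insert, Finset.mem_singleton]
    fin_cases j
    · exact Or.inl (Or.inl rfl)
    · exact Or.inr (Or.inl rfl)
    · exact Or.inl (Or.inr (Or.inl rfl))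
    · exact Or.inr (Or.inr (Or.inl rfl))
    · exact Or.inl (Or.inr (Or.inr rfl))
    · exact Or.inr (Or.inr (Or.inr rfl))

/-- Structure theorem: a connected closed set with a six vertex path and a seventh vertex. -/
theorem struct {G : SimpleGraph V} {S : Finset V} (hcl : Cl G S) (b : Fin 6 → V)
    (hb : Path6 G b) (hbS : ∀ i, b i ∈ S) (z : V) (hz : z ∈ S) (hzb : ∀ i, b i ≠ z) (i₀ : Fin 6)
    (hzi : G.Adj (b i₀) z)
    (hconn : ∀ X : Finset V, b 0 ∈ X → (∀ u ∈ X, ∀ v ∈ S, G.Adj u v → v ∈ X) → S ⊆ X) :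
    ∃ A C : Finset V, Classes G S A C ∧ A ∪ C = S := by
  classical
  obtain ⟨A₀, C₀, h0, hb0⟩ := core hcl b hb hbS z hz hzb i₀ hzi
  -- maximal pair
  let F : Finset (Finset V × Finset V) := (S.powerset ×ˢ S.powerset).filter
    (fun p => Classes G S p.1 p.2 ∧ b 0 ∈ p.1 ∪ p.2)
  have hF0 : (A₀, C₀) ∈ F := Finset.mem_filter.2 ⟨Finset.mem_product.2
    ⟨Finset.mem_powerset.2 h0.subA, Finset.mem_powerset.2 h0.subC⟩, h0, hb0 0⟩
  obtain ⟨⟨A, C⟩, hAC, hmax⟩ := F.exists_max_image (fun p => p.1.card + p.2.card) ⟨_, hF0⟩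
  have hAC' := (Finset.mem_filter.1 hAC).2
  obtain ⟨hcls, hb0'⟩ := hAC'
  simp only at hcls hb0' hmax
  refine ⟨A, C, hcls, ?_⟩
  apply Finset.Subset.antisymm (Finset.union_subset hcls.subA hcls.subC)
  apply hconn _ hb0'
  intro u hu v hv huv
  by_contra hvn
  rw [Finset.mem_union, not_or] at hvn
  rcases Finset.mem_union.1 hu with hu | hu
  · have hall := hcls.extend hcl hv hvn.1 hvn.2 hu huv.symm
    have hnew : Classes G S A (insert v C) := by
      refine ⟨?_, hcls.subA, ?_, hcls.cardA, ?_, ?_⟩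
      · rw [Finset.disjoint_insert_right]; exact ⟨hvn.1, hcls.disj⟩
      · intro x hx
        rcases Finset.mem_insert.1 hx with rfl | hx
        · exact hv
        · exact hcls.subC hx
      · rw [Finset.card_insert_of_notMem hvn.2]; have := hcls.cardC; omega
      · intro x hx y hy
        rcases Finset.mem_insert.1 hy with rfl | hy
        · exact (hall x hx).symm
        · exact hcls.adj x hx y hy
    have := hmax (A, insert v C) (Finset.mem_filter.2 ⟨Finset.mem_product.2
      ⟨Finset.mem_powerset.2 hnew.subA, Finset.mem_powerset.2 hnew.subC⟩, hnew, by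
        rcases Finset.mem_union.1 hb0' with h | h
        · exact Finset.mem_union_left _ h
        · exact Finset.mem_union_right _ (Finset.mem_insert_of_mem h)⟩)
    simp only [Finset.card_insert_of_notMem hvn.2] at this
    omega
  · have hall := hcls.symm.extend hcl hv hvn.2 hvn.1 hu huv.symm
    have hnew : Classes G S (insert v A) C := by
      refine ⟨?_, ?_, hcls.subC, ?_, hcls.cardC, ?_⟩
      · rw [Finset.disjoint_insert_left]; exact ⟨hvn.2, hcls.disj⟩
      · intro x hx
        rcases Finset.mem_insert.1 hx with rfl | hx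
        · exact hv
        · exact hcls.subA hx
      · rw [Finset.card_insert_of_notMem hvn.1]; have := hcls.cardA; omega
      · intro x hx y hy
        rcases Finset.mem_insert.1 hx with rfl | hx
        · exact hall y hy
        · exact hcls.adj x hx y hy
    have := hmax (insert v A, C) (Finset.mem_filter.2 ⟨Finset.mem_product.2
      ⟨Finset.mem_powerset.2 hnew.subA, Finset.mem_powerset.2 hnew.subC⟩, hnew, by
        rcases Finset.mem_union.1 hb0' with h | h
        · exact Finset.mem_union_left _ (Finset.mem_insert_of_mem h)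
        · exact Finset.mem_union_right _ h⟩)
    simp only [Finset.card_insert_of_notMem hvn.1] at this
    omega

/-- Walks inside `S` stay in a closed set. -/
theorem walk_closed {G : SimpleGraph V} {S X : Finset V}
    (hX : ∀ u ∈ X, ∀ v ∈ S, G.Adj u v → v ∈ X) {u v : V} (p : G.Walk u v) (hu : u ∈ X)
    (hp : ∀ w ∈ p.support, w ∈ S) : ∀ w ∈ p.support, w ∈ X := by
  induction p with
  | nil =>
    intro w hw
    rw [Walk.support_nil, List.mem_singleton] at hw
    rw [hw]; exact hu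
  | cons h p ih =>
    intro w hw
    rw [Walk.support_cons, List.mem_cons] at hw
    have hp' : ∀ w ∈ p.support, w ∈ S := fun w hw => hp w (by
      rw [Walk.support_cons]; exact List.mem_cons_of_mem _ hw)
    have hv := hX _ hu _ (hp' _ p.start_mem_support) h
    rcases hw with rfl | hw
    · exact hu
    · exact ih hv hp' w hw

/-- Classes alternate along walks when there is no edge inside a class. -/
theorem walk_alt {G : SimpleGraph V} {S A : Finset V}
    (hno : ∀ u ∈ S, ∀ v ∈ S, G.Adj u v → (u ∈ A ↔ v ∉ A)) {u v : V} (p : G.Walk u v)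
    (hp : ∀ w ∈ p.support, w ∈ S) : (v ∈ A ↔ (u ∈ A ↔ p.length % 2 = 0)) := by
  induction p with
  | nil => simp
  | cons h p ih =>
    have hp' : ∀ w ∈ p.support, w ∈ S := fun w hw => hp w (by
      rw [Walk.support_cons]; exact List.mem_cons_of_mem _ hw)
    have h1 := ih hp'
    have h2 := hno _ (hp _ (by rw [Walk.support_cons]; exact List.mem_cons_self)) _
      (hp' _ p.start_mem_support) h
    rw [Walk.length_cons]
    have h3 : (p.length + 1) % 2 = 0 ↔ ¬ (p.length % 2 = 0) := by omega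
    rw [h3]
    tauto

end Pool.Agent.Q267.GBP
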