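import Pool.Agent.Q267.GBP.C6b

/-!
# The `C_6`-process stops after `log n + O(1)` rounds
-/

namespace Pool.Agent.Q267.GBP

open SimpleGraph

variable {V : Type*}

/-- Parities of distances stay a proper colouring. -/
theorem C6seq.parity {B : ℕ → SimpleGraph V} {T : ℕ} (h : C6seq B T) (K : Finset V)
    (hK : ∀ x ∈ K, ∀ y, (B 0).Reachable x y → y ∈ K) (par : V → ℕ) (hp2 : ∀ v, par v < 2)
    (hpar : ∀ p q, p ∈ K → (B 0).Adj p q → par p ≠ par q) (t : ℕ) (ht : t ≤ T) {p q : V}
    (hp : p ∈ K) (hpq : (B t).Adj p q) : par p ≠ par q := by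
  induction t generalizing p q with
  | zero => exact hpar p q hp hpq
  | succ t ih =>
    rcases h.only t (by omega) p q hpq with h1 | ⟨a, ha, rfl, rfl⟩
    · exact ih (by omega) hp h1
    · have hr : ∀ i : Fin 5, a i.castSucc ∈ K → a i.succ ∈ K := by
        intro i hi
        exact hK _ hi _ (h.reach t (by omega) (ha.2 i))
      have m1 : a 1 ∈ K := hr 0 hp
      have m2 : a 2 ∈ K := hr 1 m1
      have m3 : a 3 ∈ K := hr 2 m2
      have m4 : a 4 ∈ K := hr 3 m3
      have q0 : par (a 0) ≠ par (a 1) := ih (by omega) hp (ha.2 0)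
      have q1 : par (a 1) ≠ par (a 2) := ih (by omega) m1 (ha.2 1)
      have q2 : par (a 2) ≠ par (a 3) := ih (by omega) m2 (ha.2 2)
      have q3 : par (a 3) ≠ par (a 4) := ih (by omega) m3 (ha.2 3)
      have q4 : par (a 4) ≠ par (a 5) := ih (by omega) m4 (ha.2 4)
      have b0 := hp2 (a 0)
      have b1 := hp2 (a 1)
      have b2 := hp2 (a 2)
      have b3 := hp2 (a 3)
      have b4 := hp2 (a 4)
      have b5 := hp2 (a 5)
      omega

/-- Once all distances are at most `8`, the process stops within `3601` rounds. -/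
theorem C6seq.finish [Fintype V] [DecidableEq V] {B : ℕ → SimpleGraph V} {T : ℕ}
    (h : C6seq B T) (hd : ∀ x y, (B 0).Reachable x y → (B 0).dist x y ≤ 8) (t : ℕ)
    (ht : 3600 ≤ t) (htT : t < T) : B (t + 1) = B t := by
  classical
  apply le_antisymm _ (h.mono t)
  intro x y hxy
  rcases h.only t htT x y hxy with h1 | ⟨a, ha, rfl, rfl⟩
  · exact h1
  by_contra hn
  -- the component
  obtain ⟨K, hKdef⟩ : ∃ K : Finset V, ∀ v, v ∈ K ↔ (B 0).Reachable (a 0) v :=
    ⟨Finset.univ.filter (fun v => (B 0).Reachable (a 0) v), fun v => by simp⟩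
  have hK : ∀ x ∈ K, ∀ y, (B 0).Reachable x y → y ∈ K := by
    intro x hx y hxy
    rw [hKdef] at hx ⊢
    exact hx.trans hxy
  have haK0 : a 0 ∈ K := (hKdef _).2 (Reachable.refl _)
  have hr : ∀ i : Fin 5, a i.castSucc ∈ K → a i.succ ∈ K := by
    intro i hi
    exact hK _ hi _ (h.reach t (by omega) (ha.2 i))
  have m1 : a 1 ∈ K := hr 0 haK0
  have m2 : a 2 ∈ K := hr 1 m1
  have m3 : a 3 ∈ K := hr 2 m2
  have m4 : a 4 ∈ K := hr 3 m3
  have m5 : a 5 ∈ K := hr 4 m4
  have haK : ∀ i, a i ∈ K := by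
    intro i
    fin_cases i
    · exact haK0
    · exact m1
    · exact m2
    · exact m3
    · exact m4
    · exact m5
  -- `K` is never closed in the window
  have hncl : ∀ t₁ ≤ 3600, ¬ Cl (B t₁) K := by
    intro t₁ ht₁ hcl
    have : Path6 (B t₁) a :=
      ⟨ha.1, fun i => h.stat K hK t₁ hcl t (by omega) (by omega) (haK _) (ha.2 i)⟩
    exact hn (h.monotone (show t₁ ≤ t by omega) (hcl a this haK))
  have hKcard : 60 < K.card := by
    by_contra hcon
    obtain ⟨t₁, ht₁, hcl⟩ := h.window K (by omega)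
    exact hncl t₁ ht₁ hcl
  -- a path at time `0`
  obtain ⟨b, hb, hbK⟩ : ∃ b, Path6 (B 0) b ∧ ∀ i, b i ∈ K := by
    have := hncl 0 (by omega)
    unfold Cl at this
    push Not at this
    obtain ⟨b, hb, hbK, _⟩ := this
    exact ⟨b, hb, hbK⟩
  have hreach : ∀ v ∈ K, (B 0).Reachable (b 0) v := by
    intro v hv
    have h1 := (hKdef _).1 (hbK 0)
    have h2 := (hKdef _).1 hv
    exact h1.symm.trans h2
  -- a seventh vertex
  obtain ⟨z, i₀, hzK, hzb, hzi⟩ : ∃ z i₀, z ∈ K ∧ (∀ i, b i ≠ z) ∧ (B 0).Adj (b i₀) z := by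
    obtain ⟨v, hv, hvb⟩ := pick K (Finset.univ.image b) (by
      have := Finset.card_image_le (s := (Finset.univ : Finset (Fin 6))) (f := b)
      simp only [Finset.card_univ, Fintype.card_fin] at this
      omega)
    obtain ⟨w⟩ := hreach v hv
    obtain ⟨d, _, hd1, hd2⟩ := w.exists_boundary_dart (Set.range b) ⟨0, rfl⟩ (by
      rintro ⟨i, hi⟩
      exact hvb (Finset.mem_image.2 ⟨i, Finset.mem_univ _, hi⟩))
    obtain ⟨i₀, hi₀⟩ := hd1
    refine ⟨d.snd, i₀, ?_, ?_, ?_⟩
    · apply hK (b i₀) (hbK i₀)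
      rw [hi₀]
      exact d.adj.reachable
    · intro i hi
      exact hd2 ⟨i, hi⟩
    · rw [hi₀]; exact d.adj
  -- short walks
  have hwalk : ∀ v ∈ K, ∃ p : (B 0).Walk (b 0) v, p.length = (B 0).dist (b 0) v ∧
      p.support.toFinset.card ≤ 9 ∧ ∀ w ∈ p.support, w ∈ K := by
    intro v hv
    obtain ⟨p, hp⟩ := (hreach v hv).exists_walk_length_eq_dist
    refine ⟨p, hp, ?_, ?_⟩
    · have h1 := List.toFinset_card_le p.support
      have h2 := p.length_support
      have h3 := hd _ _ (hreach v hv)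
      omega
    · intro w hw
      exact hK _ (hbK 0) _ ⟨p.takeUntil w hw⟩
  obtain ⟨px, hpx, hpx9, hpxK⟩ := hwalk (a 0) (haK 0)
  obtain ⟨py, hpy, hpy9, hpyK⟩ := hwalk (a 5) (haK 5)
  -- general conclusion from a set `S`
  have hmain : ∀ (E : Finset V), E.card ≤ 18 → (∀ X : Finset V, b 0 ∈ X →
      (∀ u ∈ X, ∀ v ∈ Finset.univ.image b ∪ {z} ∪ px.support.toFinset ∪ py.support.toFinset ∪ E,
        (B 0).Adj u v → v ∈ X) → E ⊆ X) → ∃ t₁ ≤ 3600, ∃ A C : Finset V,
      Cl (B t₁) (Finset.univ.image b ∪ {z} ∪ px.support.toFinset ∪ py.support.toFinset ∪ E) ∧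
      Classes (B t₁) (Finset.univ.image b ∪ {z} ∪ px.support.toFinset ∪ py.support.toFinset ∪ E)
        A C ∧
      A ∪ C = Finset.univ.image b ∪ {z} ∪ px.support.toFinset ∪ py.support.toFinset ∪ E := by
    intro E hE hEX
    obtain ⟨S, hS⟩ : ∃ S, S = Finset.univ.image b ∪ {z} ∪ px.support.toFinset ∪
      py.support.toFinset ∪ E := ⟨_, rfl⟩
    rw [← hS] at hEX ⊢
    have hScard : S.card ≤ 60 := by
      rw [hS]
      have c1 := Finset.card_union_le (Finset.univ.image b ∪ {z} ∪ px.support.toFinset ∪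
        py.support.toFinset) E
      have c2 := Finset.card_union_le (Finset.univ.image b ∪ {z} ∪ px.support.toFinset)
        py.support.toFinset
      have c3 := Finset.card_union_le (Finset.univ.image b ∪ {z}) px.support.toFinset
      have c4 := Finset.card_union_le (Finset.univ.image b) {z}
      have c5 := Finset.card_image_le (s := (Finset.univ : Finset (Fin 6))) (f := b)
      simp only [Finset.card_univ, Fintype.card_fin] at c5
      rw [Finset.card_singleton] at c4
      omega
    have hbS : ∀ i, b i ∈ S := by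
      intro i
      rw [hS]
      simp only [Finset.mem_union, Finset.mem_image, Finset.mem_univ, true_and]
      exact Or.inl (Or.inl (Or.inl (Or.inl ⟨i, rfl⟩)))
    have hzS : z ∈ S := by
      rw [hS]
      simp only [Finset.mem_union, Finset.mem_singleton]
      exact Or.inl (Or.inl (Or.inl (Or.inr trivial)))
    have hpxS : ∀ w ∈ px.support, w ∈ S := by
      intro w hw
      rw [hS]
      simp only [Finset.mem_union, List.mem_toFinset]
      exact Or.inl (Or.inl (Or.inr hw))
    have hpyS : ∀ w ∈ py.support, w ∈ S := by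
      intro w hw
      rw [hS]
      simp only [Finset.mem_union, List.mem_toFinset]
      exact Or.inl (Or.inr hw)
    obtain ⟨t₁, ht₁, hcl⟩ := h.window S hScard
    have hle : B 0 ≤ B t₁ := h.monotone (Nat.zero_le _)
    obtain ⟨A, C, hAC, hu⟩ := struct hcl b (hb.mono hle) hbS z hzS hzb i₀ (hle hzi) (by
      intro X hX0 hX
      have hX' : ∀ u ∈ X, ∀ v ∈ S, (B 0).Adj u v → v ∈ X := fun u hu v hv huv =>
        hX u hu v hv (hle huv)
      have hbX : ∀ i, b i ∈ X := by
        have e1 : b 1 ∈ X := hX' _ hX0 _ (hbS 1) (hb.2 0)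
        have e2 : b 2 ∈ X := hX' _ e1 _ (hbS 2) (hb.2 1)
        have e3 : b 3 ∈ X := hX' _ e2 _ (hbS 3) (hb.2 2)
        have e4 : b 4 ∈ X := hX' _ e3 _ (hbS 4) (hb.2 3)
        have e5 : b 5 ∈ X := hX' _ e4 _ (hbS 5) (hb.2 4)
        intro i
        fin_cases i
        · exact hX0
        · exact e1
        · exact e2
        · exact e3
        · exact e4
        · exact e5
      have hzX : z ∈ X := hX' _ (hbX i₀) _ hzS hzi
      have hpxX := walk_closed hX' px hX0 hpxS
      have hpyX := walk_closed hX' py hX0 hpyS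
      have hEX' := hEX X hX0 hX'
      intro v hv
      rw [hS] at hv
      simp only [Finset.mem_union, Finset.mem_image, Finset.mem_univ, true_and,
        Finset.mem_singleton, List.mem_toFinset] at hv
      rcases hv with (((⟨i, rfl⟩ | rfl) | hv) | hv) | hv
      · exact hbX i
      · exact hzX
      · exact hpxX v hv
      · exact hpyX v hv
      · exact hEX' hv)
    exact ⟨t₁, ht₁, A, C, hcl, hAC, hu⟩
  -- parities
  let par : V → ℕ := fun v => (B 0).dist (b 0) v % 2
  have hnt₁ : ∀ t₁ ≤ 3600, ¬ (B t₁).Adj (a 0) (a 5) := fun t₁ ht₁ hadj =>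
    hn (h.monotone (show t₁ ≤ t by omega) hadj)
  by_cases hpar : ∀ p q, p ∈ K → (B 0).Adj p q → par p ≠ par q
  · -- bipartite case
    obtain ⟨t₁, ht₁, A, C, hcl, hAC, hu⟩ := hmain ∅ (by simp) (by simp)
    have hp2 : ∀ v, par v < 2 := fun v => Nat.mod_lt _ (by norm_num)
    have hP := fun t' (ht' : t' ≤ T) (p q : V) (hp : p ∈ K) (hpq : (B t').Adj p q) =>
      h.parity K hK par hp2 hpar t' ht' hp hpq
    have hSK : ∀ v ∈ A ∪ C, v ∈ K := by
      intro v hv
      rw [hu] at hv
      simp only [Finset.mem_union, Finset.mem_image, Finset.mem_univ, true_and,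
        Finset.mem_singleton, List.mem_toFinset, Finset.notMem_empty, or_false] at hv
      rcases hv with ((⟨i, rfl⟩ | rfl) | hv) | hv
      · exact hbK i
      · exact hzK
      · exact hpxK v hv
      · exact hpyK v hv
    have hx : a 0 ∈ A ∪ C := by
      rw [hu]
      simp only [Finset.mem_union, List.mem_toFinset]
      exact Or.inl (Or.inl (Or.inr px.end_mem_support))
    have hy : a 5 ∈ A ∪ C := by
      rw [hu]
      simp only [Finset.mem_union, List.mem_toFinset]
      exact Or.inl (Or.inr py.end_mem_support)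
    have hpA : ∀ u ∈ A, ∀ v ∈ C, par u ≠ par v := fun u hu' v hv =>
      hP t₁ (by omega) u v (hSK u (Finset.mem_union_left _ hu')) (hAC.adj u hu' v hv)
    have hpath : par (a 0) ≠ par (a 5) := by
      have q0 : par (a 0) ≠ par (a 1) := hP t (by omega) _ _ (haK 0) (ha.2 0)
      have q1 : par (a 1) ≠ par (a 2) := hP t (by omega) _ _ (haK 1) (ha.2 1)
      have q2 : par (a 2) ≠ par (a 3) := hP t (by omega) _ _ (haK 2) (ha.2 2)
      have q3 : par (a 3) ≠ par (a 4) := hP t (by omega) _ _ (haK 3) (ha.2 3)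
      have q4 : par (a 4) ≠ par (a 5) := hP t (by omega) _ _ (haK 4) (ha.2 4)
      have b0 := hp2 (a 0)
      have b1 := hp2 (a 1)
      have b2 := hp2 (a 2)
      have b3 := hp2 (a 3)
      have b4 := hp2 (a 4)
      have b5 := hp2 (a 5)
      omega
    have c0 : 0 < A.card := by have := hAC.cardA; omega
    have c1 : 0 < C.card := by have := hAC.cardC; omega
    obtain ⟨u, hu'⟩ := Finset.card_pos.1 c0
    obtain ⟨v, hv'⟩ := Finset.card_pos.1 c1
    have b0 := hp2 (a 0)
    have b5 := hp2 (a 5)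
    have bu := hp2 u
    have bv := hp2 v
    rcases Finset.mem_union.1 hx with hx | hx <;> rcases Finset.mem_union.1 hy with hy | hy
    · have e1 := hpA _ hx v hv'
      have e2 := hpA _ hy v hv'
      omega
    · exact hnt₁ t₁ ht₁ (hAC.adj _ hx _ hy)
    · exact hnt₁ t₁ ht₁ (hAC.adj _ hy _ hx).symm
    · have e1 := hpA u hu' _ hx
      have e2 := hpA u hu' _ hy
      omega
  · -- non-bipartite case
    push Not at hpar
    obtain ⟨p, q, hpK, hpq, hparpq⟩ := hpar
    have hqK : q ∈ K := hK p hpK q hpq.reachable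
    obtain ⟨pp, hpp, hpp9, _⟩ := hwalk p hpK
    obtain ⟨pq, hpq', hpq9, _⟩ := hwalk q hqK
    obtain ⟨t₁, ht₁, A, C, hcl, hAC, hu⟩ := hmain (pp.support.toFinset ∪ pq.support.toFinset)
      ((Finset.card_union_le _ _).trans (by omega)) (by
        intro X hX0 hX
        have e1 := walk_closed hX pp hX0 (fun w hw => by
          simp only [Finset.mem_union, List.mem_toFinset]
          exact Or.inr (Or.inl hw))
        have e2 := walk_closed hX pq hX0 (fun w hw => by
          simp only [Finset.mem_union, List.mem_toFinset]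
          exact Or.inr (Or.inr hw))
        intro v hv
        rcases Finset.mem_union.1 hv with hv | hv
        · exact e1 v (List.mem_toFinset.1 hv)
        · exact e2 v (List.mem_toFinset.1 hv))
    have hle : B 0 ≤ B t₁ := h.monotone (Nat.zero_le _)
    have hx : a 0 ∈ A ∪ C := by
      rw [hu]
      simp only [Finset.mem_union, List.mem_toFinset]
      exact Or.inl (Or.inl (Or.inr px.end_mem_support))
    have hy : a 5 ∈ A ∪ C := by
      rw [hu]
      simp only [Finset.mem_union, List.mem_toFinset]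
      exact Or.inl (Or.inr py.end_mem_support)
    have hne : a 0 ≠ a 5 := fun h' => absurd (ha.1 h') (by decide)
    -- an edge inside a class
    have hin : (∃ u ∈ A, ∃ v ∈ A, (B t₁).Adj u v) ∨ (∃ u ∈ C, ∃ v ∈ C, (B t₁).Adj u v) := by
      by_contra hcon
      push Not at hcon
      obtain ⟨hcA, hcC⟩ := hcon
      have hno : ∀ u ∈ A ∪ C, ∀ v ∈ A ∪ C, (B t₁).Adj u v → (u ∈ A ↔ v ∉ A) := by
        intro u hu' v hv' huv
        constructor
        · intro huA hvA
          exact hcA u huA v hvA huv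
        · intro hvA
          by_contra huA
          have huC : u ∈ C := by
            rcases Finset.mem_union.1 hu' with h' | h'
            · exact absurd h' huA
            · exact h'
          have hvC : v ∈ C := by
            rcases Finset.mem_union.1 hv' with h' | h'
            · exact absurd h' hvA
            · exact h'
          exact hcC u huC v hvC huv
      have hno0 : ∀ u ∈ A ∪ C, ∀ v ∈ A ∪ C, (B 0).Adj u v → (u ∈ A ↔ v ∉ A) :=
        fun u hu' v hv' huv => hno u hu' v hv' (hle huv)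
      have hppS : ∀ w ∈ pp.support, w ∈ A ∪ C := by
        intro w hw
        rw [hu]
        simp only [Finset.mem_union, List.mem_toFinset]
        exact Or.inr (Or.inl hw)
      have hpqS : ∀ w ∈ pq.support, w ∈ A ∪ C := by
        intro w hw
        rw [hu]
        simp only [Finset.mem_union, List.mem_toFinset]
        exact Or.inr (Or.inr hw)
      have e1 := walk_alt hno0 pp hppS
      have e2 := walk_alt hno0 pq hpqS
      have e3 := hno0 p (hppS _ pp.end_mem_support) q (hpqS _ pq.end_mem_support) hpq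
      rw [hpp] at e1
      rw [hpq'] at e2
      simp only [par] at hparpq
      rw [hparpq] at e1
      tauto
    have hcompl : (∀ x ∈ A, ∀ y ∈ A, x ≠ y → (B t₁).Adj x y) ∧
        (∀ x ∈ C, ∀ y ∈ C, x ≠ y → (B t₁).Adj x y) := by
      rcases hin with ⟨u, hu', v, hv', huv⟩ | ⟨u, hu', v, hv', huv⟩
      · exact ⟨hAC.symm.odd' hcl hu' hv' huv, hAC.symm.odd hcl hu' hv' huv⟩
      · exact ⟨hAC.odd hcl hu' hv' huv, hAC.odd' hcl hu' hv' huv⟩
    rcases Finset.mem_union.1 hx with hx | hx <;> rcases Finset.mem_union.1 hy with hy | hy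
    · exact hnt₁ t₁ ht₁ (hcompl.1 _ hx _ hy hne)
    · exact hnt₁ t₁ ht₁ (hAC.adj _ hx _ hy)
    · exact hnt₁ t₁ ht₁ (hAC.adj _ hy _ hx).symm
    · exact hnt₁ t₁ ht₁ (hcompl.2 _ hx _ hy hne)

/-- The `C_6`-process stops after `log n + O(1)` rounds. -/
theorem C6seq.stops [Fintype V] [DecidableEq V] {B : ℕ → SimpleGraph V} {T : ℕ}
    (h : C6seq B T) (hT : Nat.log 2 (Fintype.card V) + 3602 ≤ T) :
    B (Nat.log 2 (Fintype.card V) + 3602) = B (Nat.log 2 (Fintype.card V) + 3601) := by
  obtain ⟨s, hs⟩ : ∃ s, s = Nat.log 2 (Fintype.card V) + 1 := ⟨_, rfl⟩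
  have hcard : Fintype.card V / 2 ^ s = 0 := by
    rw [Nat.div_eq_zero_iff]
    right
    rw [hs]
    exact Nat.lt_pow_succ_log_self (by norm_num) _
  have h' := h.shift s
  have hreach : ∀ x y, (B s).Reachable x y → (B 0).Reachable x y := by
    rintro x y ⟨p⟩
    induction p with
    | nil => exact Reachable.refl _
    | cons hadj p ih => exact (h.reach s (by omega) hadj).trans ih
  have hd : ∀ x y, (B (s + 0)).Reachable x y → (B (s + 0)).dist x y ≤ 8 := by
    intro x y hxy
    have := (h.dist_le s (hreach x y hxy)).2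
    rw [hcard] at this
    simpa using this
  have := h'.finish hd 3600 (le_refl _) (by omega)
  have e1 : s + (3600 + 1) = Nat.log 2 (Fintype.card V) + 3602 := by omega
  have e2 : s + 3600 = Nat.log 2 (Fintype.card V) + 3601 := by omega
  rw [e1, e2] at this
  exact this

end Pool.Agent.Q267.GBP
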