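import Pool.Agent.Q267.GBP.Basic

/-!
# The wheel process can be slow: `M_{W_6}(n) ≥ ⌊n / 2⌋ / 2`
-/

namespace Pool.Agent.Q267.GBP

open SimpleGraph

/-- Clique on the vertices below `k`, plus the edges `{i, i + 1}` and `{i, i + m}`. -/
def chain (n m k : ℕ) : SimpleGraph (Fin n) where
  Adj a b := a ≠ b ∧ ((a.val < k ∧ b.val < k) ∨ b.val = a.val + 1 ∨ a.val = b.val + 1 ∨
    b.val = a.val + m ∨ a.val = b.val + m)
  symm := by
    constructor
    rintro a b ⟨h, h'⟩
    exact ⟨h.symm, by tauto⟩
  loopless := by
    constructor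
    rintro a ⟨h, _⟩
    exact h rfl

/-- six distinct elements in the neighbourhood -/
theorem not_six {n : ℕ} {r : Fin 6 → Fin n} (hr : Function.Injective r) (a b c d : ℕ)
    (h : ∀ i, (r i).val = a ∨ (r i).val = b ∨ (r i).val = c ∨ (r i).val = d) : False := by
  have hcard : (Finset.univ.image (fun i => (r i).val)).card = 6 := by
    rw [Finset.card_image_of_injective _ (fun i j hij => hr (Fin.ext hij))]
    rfl
  have hsub : (Finset.univ.image (fun i => (r i).val)) ⊆ {a, b, c, d} := by
    intro x hx
    obtain ⟨i, _, rfl⟩ := Finset.mem_image.1 hx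
    simp only [Finset.mem_insert, Finset.mem_singleton]
    exact h i
  have := Finset.card_le_card hsub
  have h4 : ({a, b, c, d} : Finset ℕ).card ≤ 4 := Finset.card_le_four
  omega

theorem fin6_a : ∀ i : Fin 6, i + 1 ≠ i - 1 := by decide
theorem fin6_b : ∀ i : Fin 6, i + 1 ≠ i := by decide
theorem fin6_c : ∀ i : Fin 6, i - 1 ≠ i := by decide
theorem fin6_d : ∀ i : Fin 6, i + 1 + 1 ≠ i := by decide
theorem fin6_e : ∀ i : Fin 6, i - 1 - 1 ≠ i := by decide

theorem chain_step (n m k : ℕ) (hm : 3 ≤ m) (hmk : m ≤ k) (hn : n ≤ 2 * m) :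
    infect W6 (chain n m k) ≤ chain n m (k + 2) := by
  -- it suffices to treat infected pairs with the larger end at least `k + 2`
  have key : ∀ x y : Fin n, UsesCopy W6 (chain n m k) x y → x.val < y.val → k + 2 ≤ y.val →
      ¬ (chain n m k).Adj x y → False := by
    intro x y hxy hlt hy hnadj
    obtain ⟨h, r, hW, hu⟩ := usesCopy_W6_iff.1 hxy
    have hyn := y.isLt
    -- adjacency away from `y`
    have hgood : ∀ a b : Fin n, AddAdj (chain n m k) x y a b → a ≠ y → b ≠ y →
        (chain n m k).Adj a b := by
      intro a b hab ha hb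
      rcases hab with hab | hab
      · exact hab
      · exfalso
        rcases Sym2.eq_iff.1 hab with ⟨_, h2⟩ | ⟨h1, _⟩
        · exact hb h2
        · exact ha h1
    -- neighbours of `y`
    have hyN : ∀ a : Fin n, AddAdj (chain n m k) x y y a →
        a.val + 1 = y.val ∨ a.val = y.val + 1 ∨ a.val + m = y.val ∨ a = x := by
      intro a ha
      rcases ha with ha | ha
      · obtain ⟨_, h1 | h1 | h1 | h1 | h1⟩ := ha
        · omega
        · exact Or.inr (Or.inl h1)
        · exact Or.inl h1.symm
        · have := a.isLt; omega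
        · exact Or.inr (Or.inr (Or.inl h1.symm))
      · rcases Sym2.eq_iff.1 ha with ⟨h1, h2⟩ | ⟨_, h2⟩
        · exact absurd h1 (by rintro rfl; omega)
        · exact Or.inr (Or.inr (Or.inr h2))
    have hyx : ∀ a : Fin n, AddAdj (chain n m k) x y y a → a ≠ x → (chain n m k).Adj y a := by
      intro a ha hax
      rcases ha with ha | ha
      · exact ha
      · exfalso
        rcases Sym2.eq_iff.1 ha with ⟨h1, h2⟩ | ⟨_, h2⟩
        · exact absurd h1 (by rintro rfl; omega)
        · exact hax h2
    have hxy1 : x.val + 1 ≠ y.val := fun hh => hnadj ⟨by rintro rfl; omega, by omega⟩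
    have hxym : x.val + m ≠ y.val := fun hh => hnadj ⟨by rintro rfl; omega, by omega⟩
    -- neighbours of a tail vertex other than `y`
    have htail : ∀ a b : Fin n, AddAdj (chain n m k) x y a b → k ≤ a.val → a ≠ y → b ≠ y →
        b.val + 1 = a.val ∨ b.val = a.val + 1 ∨ b.val + m = a.val := by
      intro a b hab hka ha hb
      obtain ⟨_, h1 | h1 | h1 | h1 | h1⟩ := hgood a b hab ha hb
      · omega
      · exact Or.inr (Or.inl h1)
      · exact Or.inl h1.symm
      · have := b.isLt; omega
      · exact Or.inr (Or.inr h1.symm)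
    -- the hub is in the clique
    have hhy : h ≠ y := by
      rintro rfl
      exact not_six hW.inj (h.val - 1) (h.val + 1) (h.val - m) x.val (fun i => by
        rcases hyN _ (hW.spoke i) with h1 | h1 | h1 | h1
        · omega
        · omega
        · omega
        · rw [h1]; omega)
    have hhk : h.val < k := by
      by_contra hcon
      have hcon' : k ≤ h.val := by omega
      refine not_six hW.inj (h.val - 1) (h.val + 1) (h.val - m) y.val (fun i => ?_)
      by_cases hi : r i = y
      · rw [hi]; omega
      · rcases htail h (r i) (hW.spoke i) hcon' hhy hi with h1 | h1 | h1 <;> omega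
    -- `y` is on the rim
    have hyr : ∃ i, r i = y := by
      rcases hu with ⟨i, hi⟩ | ⟨i, hi⟩
      · rcases Sym2.eq_iff.1 hi with ⟨_, h2⟩ | ⟨h1, _⟩
        · exact ⟨i, h2⟩
        · exact absurd h1 hhy
      · rcases Sym2.eq_iff.1 hi with ⟨_, h2⟩ | ⟨h1, _⟩
        · exact ⟨_, h2⟩
        · exact ⟨i, h1⟩
    obtain ⟨i, hi⟩ := hyr
    have hh := hyN h (by have := (hW.spoke i).symm; rw [hi] at this; exact this)
    -- the two rim neighbours of `y`
    have hnext : AddAdj (chain n m k) x y y (r (i + 1)) := by
      have := hW.rim i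
      rw [hi] at this; exact this
    have hprev : AddAdj (chain n m k) x y y (r (i - 1)) := by
      have := (hW.rim (i - 1)).symm
      rw [sub_add_cancel, hi] at this; exact this
    have hne1 : r (i + 1) ≠ r (i - 1) := by
      intro h'
      exact fin6_a i (hW.inj h')
    have hne2 : r (i + 1) ≠ y := by
      rw [← hi]; intro h'
      exact fin6_b i (hW.inj h')
    have hne3 : r (i - 1) ≠ y := by
      rw [← hi]; intro h'
      exact fin6_c i (hW.inj h')
    by_cases hhx : h = x
    · -- the hub is `x`
      have hN1 := hyN _ hnext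
      have hN2 := hyN _ hprev
      have hx1 : r (i + 1) ≠ x := by rw [← hhx]; exact hW.ne _
      have hx2 : r (i - 1) ≠ x := by rw [← hhx]; exact hW.ne _
      -- one of them is `y ± 1`; call it `w`, the next one `u`
      have hfin : ∀ w u : Fin n, (w.val + 1 = y.val ∨ w.val = y.val + 1) → w ≠ y → u ≠ y →
          u ≠ h → AddAdj (chain n m k) x y h w → AddAdj (chain n m k) x y h u →
          AddAdj (chain n m k) x y w u → False := by
        intro w u hw hwy huy huh hhw hhu hwu
        have a1 := htail w h hhw.symm (by omega) hwy hhy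
        have a2 := htail w u hwu (by omega) hwy huy
        have hxw : h.val + m = w.val := by omega
        have hu' : u.val + 1 = w.val ∨ u.val = w.val + 1 := by
          rcases a2 with h1 | h1 | h1
          · exact Or.inl h1
          · exact Or.inr h1
          · exact absurd (Fin.ext (by omega)) huh
        have hku : k ≤ u.val := by
          rcases hu' with h1 | h1
          · rcases hw with h2 | h2
            · omega
            · exact absurd (Fin.ext (by omega)) huy
          · omega
        have a3 := htail u h hhu.symm hku huy hhy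
        omega
      rcases hN1 with h1 | h1 | h1 | h1
      · exact hfin (r (i + 1)) (r (i + 1 + 1)) (Or.inl h1) hne2
          (by rw [← hi]; intro h'; exact fin6_d i (hW.inj h'))
          (hW.ne _) (hW.spoke _) (hW.spoke _) (hW.rim _)
      · exact hfin (r (i + 1)) (r (i + 1 + 1)) (Or.inr h1) hne2
          (by rw [← hi]; intro h'; exact fin6_d i (hW.inj h'))
          (hW.ne _) (hW.spoke _) (hW.spoke _) (hW.rim _)
      · have hrim2 : AddAdj (chain n m k) x y (r (i - 1)) (r (i - 1 - 1)) := by
          have := (hW.rim (i - 1 - 1)).symm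
          rwa [sub_add_cancel] at this
        rcases hN2 with h2 | h2 | h2 | h2
        · exact hfin (r (i - 1)) (r (i - 1 - 1)) (Or.inl h2) hne3
            (by rw [← hi]; intro h'; exact fin6_e i (hW.inj h'))
            (hW.ne _) (hW.spoke _) (hW.spoke _) hrim2
        · exact hfin (r (i - 1)) (r (i - 1 - 1)) (Or.inr h2) hne3
            (by rw [← hi]; intro h'; exact fin6_e i (hW.inj h'))
            (hW.ne _) (hW.spoke _) (hW.spoke _) hrim2
        · exact hne1 (Fin.ext (by omega))
        · exact hx2 h2
      · exact hx1 h1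
    · -- the hub is `y - m`
      have hhm : h.val + m = y.val := by
        rcases hh with h1 | h1 | h1 | h1
        · omega
        · omega
        · exact h1
        · exact absurd h1 hhx
      -- one of the rim neighbours of `y` is different from `x`
      have hfin : ∀ w : Fin n, AddAdj (chain n m k) x y y w → AddAdj (chain n m k) x y h w →
          w ≠ y → w ≠ h → w ≠ x → False := by
        intro w hyw hhw hwy hwh hwx
        have a1 := hyN w hyw
        have a2 : w.val + 1 = y.val ∨ w.val = y.val + 1 := by
          rcases a1 with h1 | h1 | h1 | h1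
          · exact Or.inl h1
          · exact Or.inr h1
          · exact absurd (Fin.ext (by omega)) hwh
          · exact absurd h1 hwx
        have a3 := htail w h hhw.symm (by omega) hwy hhy
        omega
      by_cases hx1 : r (i + 1) = x
      · refine hfin (r (i - 1)) hprev (hW.spoke _) hne3 (hW.ne _) ?_
        intro h'
        exact hne1 (hx1.trans h'.symm)
      · exact hfin (r (i + 1)) hnext (hW.spoke _) hne2 (hW.ne _) hx1
  intro x y hxy
  rw [infect_adj_iff] at hxy
  rcases hxy with ⟨h1, h2⟩ | ⟨hne, hc⟩
  · exact ⟨h1, by omega⟩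
  · by_cases hG : (chain n m k).Adj x y
    · obtain ⟨h1, h2⟩ := hG
      exact ⟨h1, by omega⟩
    · refine ⟨hne, ?_⟩
      by_contra hcon
      rcases lt_trichotomy x.val y.val with hlt | heq | hlt
      · exact key x y hc hlt (by omega) hG
      · exact hne (Fin.ext heq)
      · exact key y x hc.symm hlt (by omega) (fun h => hG h.symm)

theorem chain_proc (n m : ℕ) (hm : 3 ≤ m) (hn : n ≤ 2 * m) (t : ℕ) :
    proc W6 (chain n m m) t ≤ chain n m (m + 2 * t) := by
  induction t with
  | zero => exact le_refl _
  | succ t ih =>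
    refine (infect_mono ih).trans ?_
    have := chain_step n m (m + 2 * t) hm (by omega) hn
    exact this

/-- the closing rule in a clique -/
theorem clique_rule {n : ℕ} (G : SimpleGraph (Fin n)) (hst : G = infect W6 G) (k : ℕ) (hk : 7 ≤ k)
    (hkn : k < n) (hcl : ∀ a b : Fin n, a.val < k → b.val < k → a ≠ b → G.Adj a b)
    (v p q : Fin n) (hv : v.val = k) (hp : p.val < k) (hq : q.val < k) (hpq : p ≠ q)
    (hvp : G.Adj v p) (hvq : G.Adj v q) :
    ∀ x : Fin n, x.val < k → G.Adj v x := by
  classical
  intro x hx
  by_cases hxp : x = p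
  · rw [hxp]; exact hvp
  by_cases hxq : x = q
  · rw [hxq]; exact hvq
  -- choose three more vertices
  have hex : ∀ S : Finset (Fin n), S.card ≤ 6 → ∃ c : Fin n, c.val < k ∧ c ∉ S := by
    intro S hS
    by_contra hcon
    push Not at hcon
    have hsub : (Finset.univ.filter (fun c : Fin n => c.val < k)) ⊆ S := by
      intro c hc
      exact hcon c (Finset.mem_filter.1 hc).2
    have h1 := Finset.card_le_card hsub
    have h2 : (Finset.univ.filter (fun c : Fin n => c.val < k)).card = k := by
      have := Fin.card_filter_val_lt (n := n) (m := k)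
      simp only [this]; omega
    omega
  obtain ⟨c1, hc1, hc1'⟩ := hex {p, q, x} (by
    refine le_trans Finset.card_le_three (by norm_num))
  obtain ⟨c2, hc2, hc2'⟩ := hex {p, q, x, c1} (by
    refine le_trans Finset.card_le_four (by norm_num))
  obtain ⟨c3, hc3, hc3'⟩ := hex {p, q, x, c1, c2} (by
    refine le_trans Finset.card_le_five (by norm_num))
  simp only [Finset.mem_insert, Finset.mem_singleton, not_or] at hc1' hc2' hc3'
  have hvk : ∀ c : Fin n, c.val < k → v ≠ c := by
    rintro c hc rfl; omega
  rw [hst, infect_adj_iff]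
  right
  refine ⟨hvk x hx, usesCopy_W6_iff.2 ⟨p, ![v, q, c1, c2, c3, x], ⟨?_, ?_, ?_, ?_⟩, ?_⟩⟩
  · have h01 := hvk q hq
    have h02 := hvk c1 hc1
    have h03 := hvk c2 hc2
    have h04 := hvk c3 hc3
    have h05 := hvk x hx
    intro i j hij
    fin_cases i <;> fin_cases j <;> simp at hij <;> first | rfl | (exfalso; tauto)
  · intro i
    fin_cases i
    · exact hvk p hp
    · exact hpq.symm
    · exact hc1'.1
    · exact hc2'.1
    · exact hc3'.1
    · exact hxp
  · intro i
    fin_cases i
    · exact Or.inl hvp.symm
    · exact Or.inl (hcl _ _ hp hq hpq)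
    · exact Or.inl (hcl _ _ hp hc1 (Ne.symm hc1'.1))
    · exact Or.inl (hcl _ _ hp hc2 (Ne.symm hc2'.1))
    · exact Or.inl (hcl _ _ hp hc3 (Ne.symm hc3'.1))
    · exact Or.inl (hcl _ _ hp hx (Ne.symm hxp))
  · intro i
    fin_cases i
    · exact Or.inl hvq
    · exact Or.inl (hcl _ _ hq hc1 (Ne.symm hc1'.2.1))
    · exact Or.inl (hcl _ _ hc1 hc2 (Ne.symm hc2'.2.2.2))
    · exact Or.inl (hcl _ _ hc2 hc3 (Ne.symm hc3'.2.2.2.2))
    · exact Or.inl (hcl _ _ hc3 hx hc3'.2.2.1)
    · exact Or.inr Sym2.eq_swap
  · right
    exact ⟨5, Sym2.eq_swap⟩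

theorem stable_complete {n m : ℕ} (hm : 7 ≤ m) (hn : n ≤ 2 * m) (G : SimpleGraph (Fin n))
    (hG : chain n m m ≤ G) (hst : G = infect W6 G) :
    ∀ a b : Fin n, a ≠ b → G.Adj a b := by
  have hcl : ∀ s, ∀ a b : Fin n, a.val < m + s → b.val < m + s → a ≠ b → G.Adj a b := by
    intro s
    induction s with
    | zero =>
      intro a b ha hb hab
      exact hG ⟨hab, Or.inl ⟨ha, hb⟩⟩
    | succ s ih =>
      by_cases hms : m + s < n
      · have hv := clique_rule G hst (m + s) (by omega) hms ih ⟨m + s, hms⟩
          ⟨m + s - 1, by omega⟩ ⟨s, by omega⟩ rfl (by simp only; omega) (by simp only; omega)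
          (by intro h; have := Fin.mk.inj h; omega)
          (hG ⟨by intro h; have := Fin.mk.inj h; omega, by simp only; omega⟩)
          (hG ⟨by intro h; have := Fin.mk.inj h; omega, by simp only; omega⟩)
        intro a b ha hb hab
        by_cases ha' : a.val = m + s
        · have : a = ⟨m + s, hms⟩ := Fin.ext ha'
          rw [this]
          apply hv
          by_contra hb'
          apply hab
          exact Fin.ext (by omega)
        · by_cases hb' : b.val = m + s
          · have : b = ⟨m + s, hms⟩ := Fin.ext hb'
            rw [this]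
            exact (hv a (by omega)).symm
          · exact ih a b (by omega) (by omega) hab
      · intro a b ha hb hab
        have := a.isLt
        have := b.isLt
        exact ih a b (by omega) (by omega) hab
  intro a b hab
  have := a.isLt
  have := b.isLt
  exact hcl n a b (by omega) (by omega) hab

theorem partA (n : ℕ) (hn : 14 ≤ n) : n / 2 ≤ 2 * maxTime W6 n := by
  obtain ⟨m, hm⟩ : ∃ m, m = (n + 1) / 2 := ⟨_, rfl⟩
  have h1 : (n / 2 + 1) / 2 ≤ runTime W6 (chain n m m) := by
    apply le_runTime
    intro t ht hst
    have hcomp := stable_complete (n := n) (m := m) (by omega) (by omega)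
      (proc W6 (chain n m m) t) (proc_mono (H := W6) (chain n m m) (Nat.zero_le t)) hst
    have hle := chain_proc n m (by omega) (by omega) t
    have hadj := hcomp ⟨1, by omega⟩ ⟨n - 1, by omega⟩
      (by intro h; have := Fin.mk.inj h; omega)
    have := hle hadj
    obtain ⟨_, h2⟩ := this
    simp only at h2
    omega
  have h2 := runTime_le_maxTime (H := W6) (chain n m m)
  omega

end Pool.Agent.Q267.GBP
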