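import Pool.Agent.Q267.GBP.Basic

/-!
# The process of the wheel with a pendant edge at the hub is unbounded
-/

namespace Pool.Agent.Q267.GBP

open SimpleGraph

/-- Vertex `0` is universal; other pairs are adjacent iff their difference is odd and at
most `k`. -/
def cone (n k : ℕ) : SimpleGraph (Fin n) where
  Adj a b := a ≠ b ∧ (a.val = 0 ∨ b.val = 0 ∨
    ((a.val + b.val) % 2 = 1 ∧ a.val ≤ b.val + k ∧ b.val ≤ a.val + k))
  symm := by
    constructor
    rintro a b ⟨h, h'⟩
    refine ⟨h.symm, ?_⟩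
    rcases h' with h' | h' | ⟨h1, h2, h3⟩
    · exact Or.inr (Or.inl h')
    · exact Or.inl h'
    · exact Or.inr (Or.inr ⟨by omega, h3, h2⟩)
  loopless := by
    constructor
    rintro a ⟨h, _⟩
    exact h rfl

theorem fin6_f : ∀ i j : Fin 6, j ≠ i → ∀ k : Fin 6, (k = j ∧ k + 1 = i + 1) → False := by decide
theorem fin6_g : ∀ i j : Fin 6, i = j + 1 → i + 1 = j → False := by decide
theorem fin6_h : ∀ k : Fin 6, k + 1 ≠ k ∧ k + 2 ≠ k ∧ k + 3 ≠ k ∧ k + 4 ≠ k ∧ k + 5 ≠ k ∧
    k + 1 ≠ k + 2 ∧ k + 1 ≠ k + 3 ∧ k + 1 ≠ k + 4 ∧ k + 2 ≠ k + 3 ∧ k + 2 ≠ k + 4 ∧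
    k + 3 ≠ k + 4 ∧ k + 1 + 1 = k + 2 ∧ k + 2 + 1 = k + 3 ∧ k + 3 + 1 = k + 4 ∧
    k + 4 + 1 = k + 5 ∧ k + 5 + 1 = k := by decide

theorem cone_step (n k : ℕ) (hk : 1 ≤ k) :
    infect (addPendant W6 6) (cone n k) ≤ cone n (5 * k) := by
  intro x y hxy
  rw [infect_adj_iff] at hxy
  rcases hxy with ⟨h1, h2⟩ | ⟨hne, hc⟩
  · exact ⟨h1, by omega⟩
  by_cases hG : (cone n k).Adj x y
  · obtain ⟨h1, h2⟩ := hG
    exact ⟨h1, by omega⟩
  refine ⟨hne, ?_⟩
  by_contra hcon
  have hx0 : x.val ≠ 0 := fun h => hcon (Or.inl h)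
  have hy0 : y.val ≠ 0 := fun h => hcon (Or.inr (Or.inl h))
  obtain ⟨h, r, z, hW, hzh, hrz, hz, hu⟩ := usesCopy_W6p_iff.1 hc
  -- the exceptional index
  have hexc : ∃ e : Fin 6, (∀ j, j ≠ e → (cone n k).Adj h (r j)) ∧
      (∀ j, j ≠ e → (cone n k).Adj (r j) (r (j + 1))) ∧
      (h.val = 0 → s(r e, r (e + 1)) = s(x, y)) := by
    rcases hu with ⟨e, he⟩ | ⟨e, he⟩ | he
    · refine ⟨e, ?_, ?_, ?_⟩
      · intro j hj
        rcases hW.spoke j with h1 | h1
        · exact h1
        · exfalso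
          rw [← he] at h1
          rcases Sym2.eq_iff.1 h1 with ⟨_, h2⟩ | ⟨_, h2⟩
          · exact hj (hW.inj h2)
          · exact hW.ne _ h2
      · intro j hj
        rcases hW.rim j with h1 | h1
        · exact h1
        · exfalso
          rw [← he] at h1
          rcases Sym2.eq_iff.1 h1 with ⟨h2, _⟩ | ⟨_, h2⟩
          · exact hW.ne _ h2
          · exact hW.ne _ h2
      · intro h0
        exfalso
        rcases Sym2.eq_iff.1 he with ⟨h2, _⟩ | ⟨h2, _⟩
        · rw [h2] at h0; exact hx0 h0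
        · rw [h2] at h0; exact hy0 h0
    · refine ⟨e, ?_, ?_, ?_⟩
      · intro j hj
        rcases hW.spoke j with h1 | h1
        · exact h1
        · exfalso
          rw [← he] at h1
          rcases Sym2.eq_iff.1 h1 with ⟨h2, _⟩ | ⟨h2, _⟩
          · exact hW.ne _ h2.symm
          · exact hW.ne _ h2.symm
      · intro j hj
        rcases hW.rim j with h1 | h1
        · exact h1
        · exfalso
          rw [← he] at h1
          rcases Sym2.eq_iff.1 h1 with ⟨h2, _⟩ | ⟨h2, h3⟩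
          · exact hj (hW.inj h2)
          · exact fin6_g j e (hW.inj h2) (hW.inj h3)
      · intro _; exact he
    · refine ⟨0, ?_, ?_, ?_⟩
      · intro j hj
        rcases hW.spoke j with h1 | h1
        · exact h1
        · exfalso
          rw [← he] at h1
          rcases Sym2.eq_iff.1 h1 with ⟨_, h2⟩ | ⟨h2, _⟩
          · exact hrz _ h2
          · exact hzh h2.symm
      · intro j hj
        rcases hW.rim j with h1 | h1
        · exact h1
        · exfalso
          rw [← he] at h1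
          rcases Sym2.eq_iff.1 h1 with ⟨h2, _⟩ | ⟨_, h2⟩
          · exact hW.ne _ h2
          · exact hW.ne _ h2
      · intro h0
        exfalso
        rcases Sym2.eq_iff.1 he with ⟨h2, _⟩ | ⟨h2, _⟩
        · rw [h2] at h0; exact hx0 h0
        · rw [h2] at h0; exact hy0 h0
  obtain ⟨e, hsp, hrim, h0⟩ := hexc
  obtain ⟨e1, e2, e3, e4, e5, e12, e13, e14, e23, e24, e34, s1, s2, s3, s4, s5⟩ := fin6_h e
  by_cases hh : h.val = 0
  · -- the hub is `0`
    have he := h0 hh
    have hr0 : ∀ j, (r j).val ≠ 0 := by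
      intro j hj
      exact hW.ne j (Fin.ext (by omega))
    have hr : ∀ j, j ≠ e → ((r j).val + (r (j + 1)).val) % 2 = 1 ∧
        (r j).val ≤ (r (j + 1)).val + k ∧ (r (j + 1)).val ≤ (r j).val + k := by
      intro j hj
      obtain ⟨_, h1 | h1 | h1⟩ := hrim j hj
      · exact absurd h1 (hr0 _)
      · exact absurd h1 (hr0 _)
      · exact h1
    have q1 := hr (e + 1) e1
    have q2 := hr (e + 2) e2
    have q3 := hr (e + 3) e3
    have q4 := hr (e + 4) e4
    have q5 := hr (e + 5) e5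
    rw [s1] at q1
    rw [s2] at q2
    rw [s3] at q3
    rw [s4] at q4
    rw [s5] at q5
    apply hcon
    right; right
    rcases Sym2.eq_iff.1 he with ⟨h1, h2⟩ | ⟨h1, h2⟩
    · rw [← h1, ← h2]; omega
    · rw [← h1, ← h2]; omega
  · -- the hub is not `0`
    have hpair : ∀ j, j ≠ e → j + 1 ≠ e → (r j).val = 0 ∨ (r (j + 1)).val = 0 := by
      intro j hj hj'
      obtain ⟨_, h1⟩ := hsp j hj
      obtain ⟨_, h2⟩ := hsp (j + 1) hj'
      obtain ⟨_, h3⟩ := hrim j hj
      by_contra hcon2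
      push Not at hcon2
      obtain ⟨c1, c2⟩ := hcon2
      rcases h1 with h1 | h1 | h1
      · exact hh h1
      · exact c1 h1
      rcases h2 with h2 | h2 | h2
      · exact hh h2
      · exact c2 h2
      rcases h3 with h3 | h3 | h3
      · exact c1 h3
      · exact c2 h3
      omega
    have p1 := hpair (e + 1) e1 (by rw [s1]; exact e2)
    have p3 := hpair (e + 3) e3 (by rw [s3]; exact e4)
    rw [s1] at p1
    rw [s3] at p3
    have hne' : ∀ i j : Fin 6, i ≠ j → (r i).val = 0 → (r j).val = 0 → False := by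
      intro i j hij hi hj
      exact hij (hW.inj (Fin.ext (by omega)))
    rcases p1 with p1 | p1 <;> rcases p3 with p3 | p3
    · exact hne' _ _ e13 p1 p3
    · exact hne' _ _ e14 p1 p3
    · exact hne' _ _ e23 p1 p3
    · exact hne' _ _ e24 p1 p3

theorem cone_proc (n t : ℕ) :
    proc (addPendant W6 6) (cone n 1) t ≤ cone n (5 ^ t) := by
  induction t with
  | zero => exact le_refl _
  | succ t ih =>
    refine (infect_mono ih).trans ?_
    have := cone_step n (5 ^ t) (Nat.one_le_pow _ _ (by norm_num))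
    rw [pow_succ, mul_comm]
    exact this

/-- Closing rule: if `w` is adjacent to everything and `a` is a path with six vertices avoiding
`w`, then the ends of `a` are adjacent after one round. -/
theorem close_path {V : Type*} [Fintype V] (G : SimpleGraph V) (hV : 8 ≤ Fintype.card V) (w : V)
    (hw : ∀ v, v ≠ w → G.Adj w v) (a : Fin 6 → V) (ha : Function.Injective a)
    (haw : ∀ i, a i ≠ w) (h0 : G.Adj (a 0) (a 1)) (h1 : G.Adj (a 1) (a 2))
    (h2 : G.Adj (a 2) (a 3)) (h3 : G.Adj (a 3) (a 4)) (h4 : G.Adj (a 4) (a 5)) :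
    (infect (addPendant W6 6) G).Adj (a 0) (a 5) := by
  classical
  -- pendant vertex
  obtain ⟨z, hz⟩ : ∃ z : V, z ∉ insert w (Finset.univ.image a) := by
    by_contra hcon
    push Not at hcon
    have h1 : (Finset.univ : Finset V) ⊆ insert w (Finset.univ.image a) := fun z _ => hcon z
    have h2 := Finset.card_le_card h1
    have h3 := Finset.card_insert_le w (Finset.univ.image a)
    have h4 : (Finset.univ.image a).card ≤ 6 := by
      have := Finset.card_image_le (s := (Finset.univ : Finset (Fin 6))) (f := a)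
      simpa using this
    rw [Finset.card_univ] at h2
    omega
  rw [Finset.mem_insert, not_or] at hz
  have hza : ∀ i, a i ≠ z := by
    intro i hi
    exact hz.2 (Finset.mem_image.2 ⟨i, Finset.mem_univ _, hi⟩)
  rw [infect_adj_iff]
  right
  refine ⟨fun h => absurd (ha h) (by decide), usesCopy_W6p_iff.2 ⟨w, a, z, ⟨ha, haw, ?_, ?_⟩,
    hz.1, hza, Or.inl (hw z hz.1), ?_⟩⟩
  · intro i
    exact Or.inl (hw _ (haw i))
  · intro i
    fin_cases i
    · exact Or.inl h0
    · exact Or.inl h1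
    · exact Or.inl h2
    · exact Or.inl h3
    · exact Or.inl h4
    · exact Or.inr Sym2.eq_swap
  · right; left
    exact ⟨5, Sym2.eq_swap⟩

theorem cone_stable {n : ℕ} (hn : 8 ≤ n) (G : SimpleGraph (Fin n)) (hG : cone n 1 ≤ G)
    (hst : G = infect (addPendant W6 6) G) (k : ℕ) :
    ∀ a b : Fin n, 1 ≤ a.val → b.val = a.val + 5 ^ k → G.Adj a b := by
  induction k with
  | zero =>
    intro a b ha hb
    exact hG ⟨by rintro rfl; omega, by omega⟩
  | succ k ih =>
    intro a b ha hb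
    have hbn := b.isLt
    have hpow : 0 < 5 ^ k := Nat.pow_pos (by norm_num)
    have h5 : 5 ^ (k + 1) = 5 * 5 ^ k := by rw [pow_succ]; ring
    obtain ⟨q, hq⟩ : ∃ q, q = 5 ^ k := ⟨_, rfl⟩
    rw [h5, ← hq] at hb
    rw [← hq] at hpow ih
    let c : Fin 6 → Fin n := fun i => ⟨a.val + i.val * q, by
      have : i.val * q ≤ 5 * q := Nat.mul_le_mul_right _ (by omega)
      omega⟩
    have hc0 : c 0 = a := Fin.ext (by simp [c])
    have hc5 : c 5 = b := Fin.ext (by
      change a.val + 5 * q = b.val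
      omega)
    have hw : ∀ v, v ≠ (⟨0, by omega⟩ : Fin n) → G.Adj ⟨0, by omega⟩ v := by
      intro v hv
      exact hG ⟨hv.symm, Or.inl rfl⟩
    have := close_path G (by rw [Fintype.card_fin]; exact hn) ⟨0, by omega⟩ hw c ?_ ?_
      (ih _ _ ?_ ?_) (ih _ _ ?_ ?_) (ih _ _ ?_ ?_) (ih _ _ ?_ ?_) (ih _ _ ?_ ?_)
    · rw [← hst, hc0, hc5] at this
      exact this
    · intro i j hij
      have := Fin.mk.inj hij
      have h2 : i.val * q = j.val * q := by omega
      exact Fin.ext (Nat.eq_of_mul_eq_mul_right hpow h2)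
    · intro i hi
      have := Fin.mk.inj hi
      omega
    all_goals (simp only [c]; omega)

theorem partB (C : ℕ) : ∃ n, C < maxTime (addPendant W6 6) n := by
  obtain ⟨Q, hQ⟩ : ∃ Q, Q = 5 ^ (C + 2) := ⟨_, rfl⟩
  have hQ0 : 0 < Q := by rw [hQ]; exact Nat.pow_pos (by norm_num)
  obtain ⟨n, hn⟩ : ∃ n, n = Q + 10 := ⟨_, rfl⟩
  refine ⟨n, ?_⟩
  have h1 : C + 1 ≤ runTime (addPendant W6 6) (cone n 1) := by
    apply le_runTime
    intro t ht hst
    have hqle : 5 ^ (t + 1) ≤ Q := by
      rw [hQ]; exact Nat.pow_le_pow_right (by norm_num) (by omega)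
    have hstab := cone_stable (by omega) (proc (addPendant W6 6) (cone n 1) t)
      (proc_mono (H := addPendant W6 6) (cone n 1) (Nat.zero_le t)) hst (t + 1)
      ⟨1, by omega⟩ ⟨1 + 5 ^ (t + 1), by omega⟩ (le_refl _) rfl
    obtain ⟨_, h2⟩ := cone_proc n t hstab
    have hpow : 5 ^ (t + 1) = 5 * 5 ^ t := by rw [pow_succ]; ring
    have hpos : 0 < 5 ^ t := Nat.pow_pos (by norm_num)
    simp only at h2
    omega
  have h2 := runTime_le_maxTime (H := addPendant W6 6) (cone n 1)
  omega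

end Pool.Agent.Q267.GBP
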