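import Pool.Agent.Q267.GBP.PartB
import Pool.Agent.Q267.GBP.C6c

/-!
# The process of the wheel with a pendant edge at the hub stops in logarithmic time
-/

namespace Pool.Agent.Q267.GBP

open SimpleGraph

variable {V : Type*}

/-- The wheel with a pendant edge at the hub. -/
abbrev P6 : SimpleGraph (Option (Fin 7)) := addPendant W6 6

theorem hub_universal [Finite V] {G : SimpleGraph V} {h : V} {r : Fin 6 → V}
    (hW : Wheel G.Adj h r) (v : V) (hv : v ≠ h) : (infect P6 G).Adj h v := by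
  rw [infect_adj_iff]
  by_cases hr : ∃ i, r i = v
  · obtain ⟨i, rfl⟩ := hr
    exact Or.inl (hW.spoke i)
  · push Not at hr
    refine Or.inr ⟨hv.symm, usesCopy_W6p_iff.2 ⟨h, r, v, ?_, hv, hr, Or.inr rfl,
      Or.inr (Or.inr rfl)⟩⟩
    exact ⟨hW.inj, hW.ne, fun i => Or.inl (hW.spoke i), fun i => Or.inl (hW.rim i)⟩

theorem wheel_mono {G G' : SimpleGraph V} (hG : G ≤ G') {h : V} {r : Fin 6 → V}
    (hW : Wheel G.Adj h r) : Wheel G'.Adj h r :=
  ⟨hW.inj, hW.ne, fun i => hG (hW.spoke i), fun i => hG (hW.rim i)⟩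

theorem wheel_up [Finite V] {G : SimpleGraph V} {x y h : V} {r : Fin 6 → V}
    (hxy : (infect P6 G).Adj x y)
    (hW : Wheel (AddAdj G x y) h r) : Wheel (infect P6 G).Adj h r := by
  have key : ∀ a b, AddAdj G x y a b → (infect P6 G).Adj a b := by
    rintro a b (hab | hab)
    · exact le_infect hab
    · rcases Sym2.eq_iff.1 hab with ⟨rfl, rfl⟩ | ⟨rfl, rfl⟩
      · exact hxy
      · exact hxy.symm
  exact ⟨hW.inj, hW.ne, fun i => key _ _ (hW.spoke i), fun i => key _ _ (hW.rim i)⟩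

/-- Remove the edges at `w`. -/
def away (w : V) (G : SimpleGraph V) : SimpleGraph V where
  Adj a b := G.Adj a b ∧ a ≠ w ∧ b ≠ w
  symm := by
    constructor
    rintro a b ⟨h, h1, h2⟩
    exact ⟨h.symm, h2, h1⟩
  loopless := by
    constructor
    rintro a ⟨h, _⟩
    exact G.loopless.irrefl a h

theorem fin6_r : ∀ (e : Fin 6) (i : Fin 5), e + 1 + i.castSucc ≠ e ∧
    e + 1 + i.castSucc + 1 = e + 1 + i.succ ∧
    e - i.castSucc - 1 ≠ e ∧ e - i.castSucc - 1 + 1 = e - i.castSucc ∧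
    e - i.castSucc - 1 = e - i.succ := by decide

theorem fin6_s : ∀ e : Fin 6, e + 1 + 5 = e ∧ e - 5 = e + 1 ∧ e + 1 + 0 = e + 1 ∧ e - 0 = e := by
  decide

theorem step_path [Finite V] {G : SimpleGraph V} {w : V}
    (hno : ∀ h r, Wheel (infect P6 G).Adj h r → h = w) {x y : V} (hx : x ≠ w) (hy : y ≠ w)
    (hxy : (infect P6 G).Adj x y) (hn : ¬ G.Adj x y) :
    ∃ a, Path6 (away w G) a ∧ a 0 = x ∧ a 5 = y := by
  obtain ⟨hne, hc⟩ := (infect_adj_iff.1 hxy).resolve_left hn
  obtain ⟨h, r, z, hW, hzh, hrz, hz, hu⟩ := usesCopy_W6p_iff.1 hc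
  have hh : h = w := hno h r (wheel_up hxy hW)
  subst hh
  have hbad : ∀ v, s(h, v) ≠ s(x, y) := by
    intro v hv
    rcases Sym2.eq_iff.1 hv with ⟨h1, _⟩ | ⟨h1, _⟩
    · exact hx h1.symm
    · exact hy h1.symm
  have he : ∃ e, s(r e, r (e + 1)) = s(x, y) := by
    rcases hu with ⟨i, hi⟩ | hi | hi
    · exact absurd hi (hbad _)
    · exact hi
    · exact absurd hi (hbad _)
  obtain ⟨e, he⟩ := he
  have hrim : ∀ j, j ≠ e → (away h G).Adj (r j) (r (j + 1)) := by
    intro j hj
    refine ⟨?_, hW.ne _, hW.ne _⟩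
    rcases hW.rim j with h1 | h1
    · exact h1
    · exfalso
      rw [← he] at h1
      rcases Sym2.eq_iff.1 h1 with ⟨h2, _⟩ | ⟨h2, h3⟩
      · exact hj (hW.inj h2)
      · exact fin6_g j e (hW.inj h2) (hW.inj h3)
  rcases Sym2.eq_iff.1 he with ⟨h1, h2⟩ | ⟨h1, h2⟩
  · refine ⟨fun j => r (e - j), ⟨?_, ?_⟩, ?_, ?_⟩
    · intro i j hij
      have := hW.inj hij
      exact sub_right_injective this
    · intro i
      obtain ⟨f1, f2, f3, f4, f5⟩ := fin6_r e i
      have := hrim _ f3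
      rw [f4, f5] at this
      exact this.symm
    · change r (e - 0) = x
      rw [(fin6_s e).2.2.2]; exact h1
    · change r (e - 5) = y
      rw [(fin6_s e).2.1]; exact h2
  · refine ⟨fun j => r (e + 1 + j), ⟨?_, ?_⟩, ?_, ?_⟩
    · intro i j hij
      have := hW.inj hij
      exact add_right_injective _ this
    · intro i
      obtain ⟨f1, f2, f3, f4, f5⟩ := fin6_r e i
      have := hrim _ f1
      rw [f2] at this
      exact this
    · change r (e + 1 + 0) = x
      rw [(fin6_s e).2.2.1]; exact h2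
    · change r (e + 1 + 5) = y
      rw [(fin6_s e).1]; exact h1

theorem away_path [Fintype V] (G : SimpleGraph V) (hV : 8 ≤ Fintype.card V) (w : V)
    (hw : ∀ v, v ≠ w → G.Adj w v) (a : Fin 6 → V) (ha : Path6 (away w G) a) :
    (away w (infect P6 G)).Adj (a 0) (a 5) := by
  have h0 := ha.2 0
  have h1 := ha.2 1
  have h2 := ha.2 2
  have h3 := ha.2 3
  have h4 := ha.2 4
  refine ⟨close_path G hV w hw a ha.1 ?_ h0.1 h1.1 h2.1 h3.1 h4.1, h0.2.1, h4.2.2⟩
  intro i
  fin_cases i
  · exact h0.2.1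
  · exact h1.2.1
  · exact h2.2.1
  · exact h3.2.1
  · exact h4.2.1
  · exact h4.2.2

theorem six [Fintype V] (G : SimpleGraph V) (hV : 8 ≤ Fintype.card V) (w : V)
    (hw : ∀ v, v ≠ w → G.Adj w v) {v0 v1 v2 v3 v4 v5 : V}
    (hnd : [w, v0, v1, v2, v3, v4, v5].Nodup)
    (h0 : G.Adj v0 v1) (h1 : G.Adj v1 v2) (h2 : G.Adj v2 v3) (h3 : G.Adj v3 v4)
    (h4 : G.Adj v4 v5) : (infect P6 G).Adj v0 v5 := by
  simp only [List.nodup_cons, List.mem_cons, List.not_mem_nil, or_false, not_or,
    List.nodup_nil, and_true, not_false_eq_true] at hnd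
  obtain ⟨⟨w0, w1, w2, w3, w4, w5⟩, ⟨a1, a2, a3, a4, a5⟩, ⟨b2, b3, b4, b5⟩, ⟨c3, c4, c5⟩,
    ⟨d4, d5⟩, e5⟩ := hnd
  refine close_path G hV w hw ![v0, v1, v2, v3, v4, v5] ?_ ?_ h0 h1 h2 h3 h4
  · intro i j hij
    fin_cases i <;> fin_cases j <;> first
      | rfl
      | (exfalso
         simp only [Fin.zero_eta, Fin.mk_one, Fin.reduceFinMk, Matrix.cons_val_zero,
           Matrix.cons_val_one, Matrix.cons_val] at hij
         first
           | exact a1 hij | exact a2 hij | exact a3 hij | exact a4 hij | exact a5 hij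
           | exact b2 hij | exact b3 hij | exact b4 hij | exact b5 hij
           | exact c3 hij | exact c4 hij | exact c5 hij | exact d4 hij | exact d5 hij
           | exact e5 hij
           | exact a1 hij.symm | exact a2 hij.symm | exact a3 hij.symm | exact a4 hij.symm
           | exact a5 hij.symm
           | exact b2 hij.symm | exact b3 hij.symm | exact b4 hij.symm | exact b5 hij.symm
           | exact c3 hij.symm | exact c4 hij.symm | exact c5 hij.symm | exact d4 hij.symm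
           | exact d5 hij.symm | exact e5 hij.symm)
  · intro i
    fin_cases i
    · exact fun h => w0 h.symm
    · exact fun h => w1 h.symm
    · exact fun h => w2 h.symm
    · exact fun h => w3 h.symm
    · exact fun h => w4 h.symm
    · exact fun h => w5 h.symm

theorem fresh [Fintype V] (X : List V) (hX : X.length < Fintype.card V) : ∃ z, z ∉ X := by
  classical
  by_contra hcon
  push Not at hcon
  have h1 : (Finset.univ : Finset V) ⊆ X.toFinset := fun z _ => List.mem_toFinset.2 (hcon z)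
  have h2 := Finset.card_le_card h1
  have h3 := List.toFinset_card_le X
  rw [Finset.card_univ] at h2
  omega

theorem fin6_t : ∀ i : Fin 6, i + 1 ≠ i ∧ i + 2 ≠ i ∧ i + 3 ≠ i ∧ i + 4 ≠ i ∧
    i + 1 ≠ i + 2 ∧ i + 1 ≠ i + 3 ∧ i + 1 ≠ i + 4 ∧ i + 2 ≠ i + 3 ∧ i + 2 ≠ i + 4 ∧
    i + 3 ≠ i + 4 ∧ i + 1 + 1 = i + 2 ∧ i + 2 + 1 = i + 3 ∧ i + 3 + 1 = i + 4 := by decide

set_option maxHeartbeats 4000000 in
theorem second_hub [Fintype V] (G : SimpleGraph V) (hV : 12 ≤ Fintype.card V) (w h : V)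
    (hw : ∀ v, v ≠ w → G.Adj w v) (hhw : h ≠ w) (r : Fin 6 → V) (hW : Wheel G.Adj h r) :
    ∀ u v, u ≠ v → (proc P6 G 5).Adj u v := by
  classical
  have hV8 : 8 ≤ Fintype.card V := by omega
  -- all graphs contain `G`
  have hwt : ∀ t, ∀ v, v ≠ w → (proc P6 G t).Adj w v := fun t v hv =>
    proc_mono G (Nat.zero_le t) (hw v hv)
  have hh1 : ∀ v, v ≠ h → (proc P6 G 1).Adj h v := fun v hv => hub_universal hW v hv
  have hht : ∀ t, 1 ≤ t → ∀ v, v ≠ h → (proc P6 G t).Adj h v := fun t ht v hv =>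
    proc_mono G ht (hh1 v hv)
  -- the path
  have hi0 : ∃ i0, ∀ j, j ≠ i0 → r j ≠ w := by
    by_cases hex : ∃ i, r i = w
    · obtain ⟨i, hi⟩ := hex
      exact ⟨i, fun j hj h1 => hj (hW.inj (h1.trans hi.symm))⟩
    · push Not at hex
      exact ⟨0, fun j _ => hex j⟩
  obtain ⟨i0, hi0⟩ := hi0
  obtain ⟨t1, t2, t3, t4, t5, t6, t7, t8, t9, t10, t11, t12, t13⟩ := fin6_t i0
  obtain ⟨a, ha⟩ : ∃ a, a = r (i0 + 1) := ⟨_, rfl⟩
  obtain ⟨b, hb⟩ : ∃ b, b = r (i0 + 2) := ⟨_, rfl⟩
  obtain ⟨c, hc⟩ : ∃ c, c = r (i0 + 3) := ⟨_, rfl⟩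
  obtain ⟨d, hd⟩ : ∃ d, d = r (i0 + 4) := ⟨_, rfl⟩
  have haw : a ≠ w := by rw [ha]; exact hi0 _ t1
  have hbw : b ≠ w := by rw [hb]; exact hi0 _ t2
  have hcw : c ≠ w := by rw [hc]; exact hi0 _ t3
  have hdw : d ≠ w := by rw [hd]; exact hi0 _ t4
  have hah : a ≠ h := by rw [ha]; exact hW.ne _
  have hbh : b ≠ h := by rw [hb]; exact hW.ne _
  have hch : c ≠ h := by rw [hc]; exact hW.ne _
  have hdh : d ≠ h := by rw [hd]; exact hW.ne _
  have hab : a ≠ b := by rw [ha, hb]; exact hW.inj.ne t5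
  have hac : a ≠ c := by rw [ha, hc]; exact hW.inj.ne t6
  have had : a ≠ d := by rw [ha, hd]; exact hW.inj.ne t7
  have hbc : b ≠ c := by rw [hb, hc]; exact hW.inj.ne t8
  have hbd : b ≠ d := by rw [hb, hd]; exact hW.inj.ne t9
  have hcd : c ≠ d := by rw [hc, hd]; exact hW.inj.ne t10
  have eab : G.Adj a b := by rw [ha, hb, ← t11]; exact hW.rim _
  have ebc : G.Adj b c := by rw [hb, hc, ← t12]; exact hW.rim _
  have ecd : G.Adj c d := by rw [hc, hd, ← t13]; exact hW.rim _
  have up : ∀ {s t : ℕ} {u v : V}, s ≤ t → (proc P6 G s).Adj u v → (proc P6 G t).Adj u v :=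
    fun hst huv => proc_mono G hst huv
  clear ha hb hc hd t1 t2 t3 t4 t5 t6 t7 t8 t9 t10 t11 t12 t13 hi0
  -- first
  have F1 : ∀ z, z ∉ [w, h, a, b, c, d] → (proc P6 G 2).Adj z a ∧ (proc P6 G 2).Adj z d := by
    intro z hz
    simp only [List.mem_cons, List.not_mem_nil, or_false, not_or] at hz
    obtain ⟨z1, z2, z3, z4, z5, z6⟩ := hz
    constructor
    · refine six (proc P6 G 1) hV8 w (hwt 1) (v0 := z) (v1 := h) (v2 := d) (v3 := c) (v4 := b)
        (v5 := a) ?_ (hh1 z z2).symm (hh1 d hdh) (up (Nat.zero_le 1) ecd).symm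
        (up (Nat.zero_le 1) ebc).symm (up (Nat.zero_le 1) eab).symm
      simp only [List.nodup_cons, List.mem_cons, List.not_mem_nil, or_false, not_or,
        List.nodup_nil, and_true, not_false_eq_true]
      refine ⟨⟨?_, ?_, ?_, ?_, ?_, ?_⟩, ⟨?_, ?_, ?_, ?_, ?_⟩, ⟨?_, ?_, ?_, ?_⟩, ⟨?_, ?_, ?_⟩,
        ⟨?_, ?_⟩, ?_⟩ <;> first | assumption | (apply Ne.symm; assumption)
    · refine six (proc P6 G 1) hV8 w (hwt 1) (v0 := z) (v1 := h) (v2 := a) (v3 := b) (v4 := c)
        (v5 := d) ?_ (hh1 z z2).symm (hh1 a hah) (up (Nat.zero_le 1) eab)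
        (up (Nat.zero_le 1) ebc) (up (Nat.zero_le 1) ecd)
      simp only [List.nodup_cons, List.mem_cons, List.not_mem_nil, or_false, not_or,
        List.nodup_nil, and_true, not_false_eq_true]
      refine ⟨⟨?_, ?_, ?_, ?_, ?_, ?_⟩, ⟨?_, ?_, ?_, ?_, ?_⟩, ⟨?_, ?_, ?_, ?_⟩, ⟨?_, ?_, ?_⟩,
        ⟨?_, ?_⟩, ?_⟩ <;> first | assumption | (apply Ne.symm; assumption)
  have F2 : ∀ z z', z ∉ [w, h, a, b, c, d] → z' ∉ [w, h, a, b, c, d] → z ≠ z' →
      (proc P6 G 3).Adj z z' := by
    intro z z' hz hz' hzz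
    obtain ⟨y, hy⟩ := fresh [w, h, a, b, c, d, z, z'] (by simp; omega)
    have hyz : y ∉ [w, h, a, b, c, d] := by
      intro hmem; apply hy
      simp only [List.mem_cons, List.not_mem_nil, or_false] at hmem ⊢
      tauto
    obtain ⟨f1, _⟩ := F1 z hz
    obtain ⟨f2, f3⟩ := F1 y hyz
    simp only [List.mem_cons, List.not_mem_nil, or_false, not_or] at hz hz' hy
    obtain ⟨z1, z2, z3, z4, z5, z6⟩ := hz
    obtain ⟨z1', z2', z3', z4', z5', z6'⟩ := hz'
    obtain ⟨y1, y2, y3, y4, y5, y6, y7, y8⟩ := hy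
    refine six (proc P6 G 2) hV8 w (hwt 2) (v0 := z) (v1 := a) (v2 := y) (v3 := d) (v4 := h)
      (v5 := z') ?_ f1 f2.symm f3 (hht 2 (by omega) d hdh).symm (hht 2 (by omega) z' z2')
    simp only [List.nodup_cons, List.mem_cons, List.not_mem_nil, or_false, not_or,
      List.nodup_nil, and_true, not_false_eq_true]
    refine ⟨⟨?_, ?_, ?_, ?_, ?_, ?_⟩, ⟨?_, ?_, ?_, ?_, ?_⟩, ⟨?_, ?_, ?_, ?_⟩, ⟨?_, ?_, ?_⟩,
      ⟨?_, ?_⟩, ?_⟩ <;> first | assumption | (apply Ne.symm; assumption)
  -- three fresh vertices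
  have F3 : ∀ z, z ∉ [w, h, a, b, c, d] → (proc P6 G 4).Adj z b ∧ (proc P6 G 4).Adj z c := by
    intro z hz
    obtain ⟨p, hp⟩ := fresh [w, h, a, b, c, d, z] (by simp; omega)
    obtain ⟨q, hq⟩ := fresh [w, h, a, b, c, d, z, p] (by simp; omega)
    obtain ⟨s, hs⟩ := fresh [w, h, a, b, c, d, z, p, q] (by simp; omega)
    have hpz : p ∉ [w, h, a, b, c, d] := by
      intro hmem; apply hp
      simp only [List.mem_cons, List.not_mem_nil, or_false] at hmem ⊢
      tauto
    have hqz : q ∉ [w, h, a, b, c, d] := by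
      intro hmem; apply hq
      simp only [List.mem_cons, List.not_mem_nil, or_false] at hmem ⊢
      tauto
    have hsz : s ∉ [w, h, a, b, c, d] := by
      intro hmem; apply hs
      simp only [List.mem_cons, List.not_mem_nil, or_false] at hmem ⊢
      tauto
    have hzp : z ≠ p := by
      rintro rfl; apply hp; simp
    have hpq : p ≠ q := by
      rintro rfl; apply hq; simp
    have hqs : q ≠ s := by
      rintro rfl; apply hs; simp
    have g1 := F2 z p hz hpz hzp
    have g2 := F2 p q hpz hqz hpq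
    have g3 := F2 q s hqz hsz hqs
    obtain ⟨g4, g5⟩ := F1 s hsz
    simp only [List.mem_cons, List.not_mem_nil, or_false, not_or] at hz hp hq hs
    obtain ⟨z1, z2, z3, z4, z5, z6⟩ := hz
    obtain ⟨p1, p2, p3, p4, p5, p6, p7⟩ := hp
    obtain ⟨q1, q2, q3, q4, q5, q6, q7, q8⟩ := hq
    obtain ⟨s1, s2, s3, s4, s5, s6, s7, s8, s9⟩ := hs
    constructor
    · refine six (proc P6 G 3) hV8 w (hwt 3) (v0 := z) (v1 := p) (v2 := q) (v3 := s) (v4 := a)
        (v5 := b) ?_ g1 g2 g3 (up (by omega) g4) (up (Nat.zero_le 3) eab)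
      simp only [List.nodup_cons, List.mem_cons, List.not_mem_nil, or_false, not_or,
        List.nodup_nil, and_true, not_false_eq_true]
      refine ⟨⟨?_, ?_, ?_, ?_, ?_, ?_⟩, ⟨?_, ?_, ?_, ?_, ?_⟩, ⟨?_, ?_, ?_, ?_⟩, ⟨?_, ?_, ?_⟩,
        ⟨?_, ?_⟩, ?_⟩ <;> first | assumption | (apply Ne.symm; assumption)
    · refine six (proc P6 G 3) hV8 w (hwt 3) (v0 := z) (v1 := p) (v2 := q) (v3 := s) (v4 := d)
        (v5 := c) ?_ g1 g2 g3 (up (by omega) g5) (up (Nat.zero_le 3) ecd).symm
      simp only [List.nodup_cons, List.mem_cons, List.not_mem_nil, or_false, not_or,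
        List.nodup_nil, and_true, not_false_eq_true]
      refine ⟨⟨?_, ?_, ?_, ?_, ?_, ?_⟩, ⟨?_, ?_, ?_, ?_, ?_⟩, ⟨?_, ?_, ?_, ?_⟩, ⟨?_, ?_, ?_⟩,
        ⟨?_, ?_⟩, ?_⟩ <;> first | assumption | (apply Ne.symm; assumption)
  -- fresh vertices see everything
  have F4 : ∀ z v, z ∉ [w, h, a, b, c, d] → v ≠ z → (proc P6 G 4).Adj z v := by
    intro z v hz hv
    by_cases hvm : v ∈ [w, h, a, b, c, d]
    · obtain ⟨f1, f2⟩ := F1 z hz
      obtain ⟨f3, f4⟩ := F3 z hz
      simp only [List.mem_cons, List.not_mem_nil, or_false, not_or] at hz hvm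
      rcases hvm with rfl | rfl | rfl | rfl | rfl | rfl
      · exact (hwt 4 z hz.1).symm
      · exact (hht 4 (by omega) z hz.2.1).symm
      · exact up (by omega) f1
      · exact f3
      · exact f4
      · exact up (by omega) f2
    · exact up (by omega) (F2 z v hz hvm hv.symm)
  have F5 : ∀ u v, u ∈ [a, b, c, d] → v ∈ [a, b, c, d] → u ≠ v → (proc P6 G 5).Adj u v := by
    intro u v hu hv huv
    obtain ⟨p, hp⟩ := fresh [w, h, a, b, c, d] (by simp; omega)
    obtain ⟨q, hq⟩ := fresh [w, h, a, b, c, d, p] (by simp; omega)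
    obtain ⟨s, hs⟩ := fresh [w, h, a, b, c, d, p, q] (by simp; omega)
    obtain ⟨o, ho⟩ := fresh [w, h, a, b, c, d, p, q, s] (by simp; omega)
    have hqz : q ∉ [w, h, a, b, c, d] := by
      intro hmem; apply hq
      simp only [List.mem_cons, List.not_mem_nil, or_false] at hmem ⊢
      tauto
    have hsz : s ∉ [w, h, a, b, c, d] := by
      intro hmem; apply hs
      simp only [List.mem_cons, List.not_mem_nil, or_false] at hmem ⊢
      tauto
    have hoz : o ∉ [w, h, a, b, c, d] := by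
      intro hmem; apply ho
      simp only [List.mem_cons, List.not_mem_nil, or_false] at hmem ⊢
      tauto
    have hup : u ≠ p := by
      rintro rfl; apply hp
      simp only [List.mem_cons, List.not_mem_nil, or_false] at hu ⊢
      tauto
    have huq : u ≠ q := by
      rintro rfl; apply hqz
      simp only [List.mem_cons, List.not_mem_nil, or_false] at hu ⊢
      tauto
    have hus : u ≠ s := by
      rintro rfl; apply hsz
      simp only [List.mem_cons, List.not_mem_nil, or_false] at hu ⊢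
      tauto
    have huo : u ≠ o := by
      rintro rfl; apply hoz
      simp only [List.mem_cons, List.not_mem_nil, or_false] at hu ⊢
      tauto
    have hvp : v ≠ p := by
      rintro rfl; apply hp
      simp only [List.mem_cons, List.not_mem_nil, or_false] at hv ⊢
      tauto
    have hvq : v ≠ q := by
      rintro rfl; apply hqz
      simp only [List.mem_cons, List.not_mem_nil, or_false] at hv ⊢
      tauto
    have hvs : v ≠ s := by
      rintro rfl; apply hsz
      simp only [List.mem_cons, List.not_mem_nil, or_false] at hv ⊢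
      tauto
    have hvo : v ≠ o := by
      rintro rfl; apply hoz
      simp only [List.mem_cons, List.not_mem_nil, or_false] at hv ⊢
      tauto
    have huw : u ≠ w := by
      simp only [List.mem_cons, List.not_mem_nil, or_false] at hu
      rcases hu with rfl | rfl | rfl | rfl <;> assumption
    have hvw : v ≠ w := by
      simp only [List.mem_cons, List.not_mem_nil, or_false] at hv
      rcases hv with rfl | rfl | rfl | rfl <;> assumption
    have hpq : p ≠ q := by
      rintro rfl; apply hq; simp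
    have hps : p ≠ s := by
      rintro rfl; apply hs; simp
    have hpo : p ≠ o := by
      rintro rfl; apply ho; simp
    have hqs : q ≠ s := by
      rintro rfl; apply hs; simp
    have hqo : q ≠ o := by
      rintro rfl; apply ho; simp
    have hso : s ≠ o := by
      rintro rfl; apply ho; simp
    have hpw : p ≠ w := by
      rintro rfl; apply hp; simp
    have hqw : q ≠ w := by
      rintro rfl; apply hq; simp
    have hsw : s ≠ w := by
      rintro rfl; apply hs; simp
    have how : o ≠ w := by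
      rintro rfl; apply ho; simp
    refine six (proc P6 G 4) hV8 w (hwt 4) (v0 := u) (v1 := p) (v2 := q) (v3 := s) (v4 := o)
      (v5 := v) ?_ (F4 p u hp hup).symm (F4 p q hp hpq.symm) (F4 q s hqz hqs.symm)
      (F4 s o hsz hso.symm) (F4 o v hoz hvo)
    simp only [List.nodup_cons, List.mem_cons, List.not_mem_nil, or_false, not_or,
      List.nodup_nil, and_true, not_false_eq_true]
    refine ⟨⟨?_, ?_, ?_, ?_, ?_, ?_⟩, ⟨?_, ?_, ?_, ?_, ?_⟩, ⟨?_, ?_, ?_, ?_⟩, ⟨?_, ?_, ?_⟩,
      ⟨?_, ?_⟩, ?_⟩ <;> first | assumption | (apply Ne.symm; assumption)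
  intro u v huv
  by_cases hu : u ∈ [w, h, a, b, c, d]
  · by_cases hv : v ∈ [w, h, a, b, c, d]
    · rcases List.mem_cons.1 hu with rfl | hu
      · exact hwt 5 v huv.symm
      rcases List.mem_cons.1 hv with rfl | hv
      · exact (hwt 5 u huv).symm
      rcases List.mem_cons.1 hu with rfl | hu
      · exact hht 5 (by omega) v huv.symm
      rcases List.mem_cons.1 hv with rfl | hv
      · exact (hht 5 (by omega) u huv).symm
      exact F5 u v hu hv huv
    · exact (up (by omega) (F4 v u hv huv)).symm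
  · exact up (by omega) (F4 u v hu huv.symm)

theorem away_proc_eq {G G' : SimpleGraph V} (w : V) (h : away w G = away w G')
    (hw : ∀ v, v ≠ w → G.Adj w v) (hw' : ∀ v, v ≠ w → G'.Adj w v) : G = G' := by
  ext x y
  by_cases hx : x = w
  · subst hx
    by_cases hy : y = x
    · subst hy; simp
    · exact ⟨fun _ => hw' y hy, fun _ => hw y hy⟩
  · by_cases hy : y = w
    · subst hy
      exact ⟨fun _ => (hw' x hx).symm, fun _ => (hw x hx).symm⟩
    · have h1 : (away w G).Adj x y ↔ (away w G').Adj x y := by rw [h]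
      constructor
      · intro h2; exact (h1.1 ⟨h2, hx, hy⟩).1
      · intro h2; exact (h1.2 ⟨h2, hx, hy⟩).1

theorem proc_add (H : SimpleGraph (Option (Fin 7))) (G : SimpleGraph V) (s t : ℕ) :
    proc H (proc H G s) t = proc H G (s + t) := by
  induction t with
  | zero => rfl
  | succ t ih => exact congrArg (infect H) ih

theorem run_le [Fintype V] [DecidableEq V] (hV : 12 ≤ Fintype.card V) (G : SimpleGraph V) :
    runTime P6 G ≤ Nat.log 2 (Fintype.card V) + 3612 := by
  have hV8 : 8 ≤ Fintype.card V := by omega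
  obtain ⟨L, hL⟩ : ∃ L, L = Nat.log 2 (Fintype.card V) := ⟨_, rfl⟩
  rw [← hL]
  by_cases h01 : proc P6 G 0 = proc P6 G 1
  · exact (runTime_le h01).trans (Nat.zero_le _)
  -- a wheel in `G_1`
  have hex : ∃ x y, (proc P6 G 1).Adj x y ∧ ¬ (proc P6 G 0).Adj x y := by
    by_contra hcon
    push Not at hcon
    exact h01 (le_antisymm (proc_le_succ G 0) (fun x y hxy => hcon x y hxy))
  obtain ⟨x, y, hxy, hnxy⟩ := hex
  obtain ⟨hne, hc⟩ := (infect_adj_iff.1 hxy).resolve_left hnxy
  obtain ⟨w, r, z, hW, -⟩ := usesCopy_W6p_iff.1 hc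
  have hW1 : Wheel (proc P6 G 1).Adj w r := wheel_up hxy hW
  have huni : ∀ t, 2 ≤ t → ∀ v, v ≠ w → (proc P6 G t).Adj w v := fun t ht v hv =>
    proc_mono G ht (hub_universal hW1 v hv)
  by_cases hsec : ∃ t ≤ L + 3605, ∃ h r, Wheel (proc P6 G t).Adj h r ∧ h ≠ w
  · obtain ⟨t, ht, h, r', hW', hhw⟩ := hsec
    have hW2 : Wheel (proc P6 G (t + 2)).Adj h r' := wheel_mono (proc_mono G (by omega)) hW'
    have hfull := second_hub (proc P6 G (t + 2)) hV w h (huni (t + 2) (by omega)) hhw r' hW2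
    rw [proc_add] at hfull
    refine (runTime_le (T := t + 2 + 5) ?_).trans (by omega)
    refine le_antisymm (proc_le_succ G _) ?_
    intro u v huv
    exact hfull u v huv.ne
  · have hno : ∀ t, t ≤ L + 3605 → ∀ h r, Wheel (proc P6 G t).Adj h r → h = w := by
      intro t ht h r hW
      by_contra hne
      exact hsec ⟨t, ht, h, r, hW, hne⟩
    have hseq : C6seq (fun t => away w (proc P6 G (2 + t))) (L + 3602) := by
      refine ⟨?_, ?_, ?_⟩
      · rintro t u v ⟨h1, h2, h3⟩
        exact ⟨proc_mono G (by omega) h1, h2, h3⟩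
      · intro t a ha
        exact away_path (proc P6 G (2 + t)) hV8 w (huni (2 + t) (by omega)) a ha
      · rintro t ht u v ⟨h1, h2, h3⟩
        by_cases huv : (proc P6 G (2 + t)).Adj u v
        · exact Or.inl ⟨huv, h2, h3⟩
        · right
          exact step_path (G := proc P6 G (2 + t)) (w := w)
            (fun h r hW => hno (2 + t + 1) (by omega) h r hW) h2 h3 h1 huv
    have hst := hseq.stops (by omega)
    rw [← hL] at hst
    refine (runTime_le (T := 2 + (L + 3601)) ?_).trans (by omega)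
    exact (away_proc_eq w hst (huni _ (by omega)) (huni _ (by omega))).symm

theorem partC (n : ℕ) (hn : 12 ≤ n) : maxTime P6 n ≤ Nat.log 2 n + 3612 := by
  apply maxTime_le
  intro G
  have := run_le (V := Fin n) (by simpa using hn) G
  simpa using this

end Pool.Agent.Q267.GBP
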